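import Pool.Agent.H993R3.Lau

/-! The cluster charts of the complement of a nodal cubic. -/

noncomputable section

namespace Pool.Agent.H993R3

open MvPolynomial (X)

abbrev P3 : Type := MvPolynomial (Fin 3) ℂ

def qq : Lam := 1 + Xm (0, 3)

def qr : Lam := 1 + Xm (0, -3)

theorem qq_ne : qq ≠ 0 := by
  intro h
  have h1 := congrArg (fun p : Lam => p.coeff (0, 3)) h
  simp only [qq] at h1
  rw [AddMonoidAlgebra.coeff_add, Finsupp.add_apply, ← Xm_zero, coeff_Xm, coeff_Xm,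
    if_neg (by decide), if_pos rfl, zero_add] at h1
  exact one_ne_zero h1

theorem qq_eq : qq = Xm (0, 3) * qr := by
  unfold qq qr
  rw [mul_add, Xm_mul, mul_one]
  have : ((0 : ℤ), (3 : ℤ)) + (0, -3) = 0 := by ext <;> simp
  rw [this, Xm_zero, add_comm]

def Phi0 : P3 →ₐ[ℂ] Lam :=
  MvPolynomial.aeval ![Xm (0, 1), Xm (-1, 0) * qq, Xm (1, -1) + Xm (-2, -1) * qq ^ 2]

def Tm : P3 →ₐ[ℂ] P3 :=
  MvPolynomial.aeval ![X 0 * X 2 - X 1 ^ 2, X 0, X 0 * X 2 ^ 2 - X 1 ^ 2 * X 2 - X 0 ^ 2 * X 1]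

def Phi : ℕ → (P3 →ₐ[ℂ] Lam)
  | 0 => Phi0
  | n + 1 => (Phi n).comp Tm

theorem Phi0_X0 : Phi0 (X 0) = Xm (0, 1) := by simp [Phi0]
theorem Phi0_X1 : Phi0 (X 1) = Xm (-1, 0) * qq := by simp [Phi0]
theorem Phi0_X2 : Phi0 (X 2) = Xm (1, -1) + Xm (-2, -1) * qq ^ 2 := by simp [Phi0]
theorem Tm_X0 : Tm (X 0) = X 0 * X 2 - X 1 ^ 2 := by simp [Tm]
theorem Tm_X1 : Tm (X 1) = X 0 := by simp [Tm]
theorem Tm_X2 : Tm (X 2) = X 0 * X 2 ^ 2 - X 1 ^ 2 * X 2 - X 0 ^ 2 * X 1 := by simp [Tm]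

theorem Phi_zero : Phi 0 = Phi0 := rfl
theorem Phi_succ (n : ℕ) (g : P3) : Phi (n + 1) g = Phi n (Tm g) := rfl

/-- names for the variables -/
def u1 : Lam := Xm (1, 0)
def v1 : Lam := Xm (0, 1)
def ui : Lam := Xm (-1, 0)
def vi : Lam := Xm (0, -1)

theorem u_ui : u1 * ui = 1 := by
  unfold u1 ui; rw [Xm_mul, ← Xm_zero]; rfl
theorem v_vi : v1 * vi = 1 := by
  unfold v1 vi; rw [Xm_mul, ← Xm_zero]; rfl

theorem Xm_11 : Xm (1, -1) = u1 * vi := by unfold u1 vi; rw [Xm_mul]; rfl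
theorem Xm_21 : Xm (-2, -1) = ui ^ 2 * vi := by unfold ui vi; rw [Xm_pow, Xm_mul]; rfl
theorem Xm_m11 : Xm (-1, -1) = ui * vi := by unfold ui vi; rw [Xm_mul]; rfl
theorem Xm_03 : Xm (0, 3) = v1 ^ 3 := by unfold v1; rw [Xm_pow]; rfl
theorem Xm_30 : Xm (3, 0) = u1 ^ 3 := by unfold u1; rw [Xm_pow]; rfl

theorem Phi1_X1 : Phi 1 (X 1) = Xm (0, 1) := by
  rw [Phi_succ, Phi_zero, Tm_X1, Phi0_X0]

theorem Phi1_X0 : Phi 1 (X 0) = Xm (1, 0) := by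
  rw [Phi_succ, Phi_zero, Tm_X0, map_sub, map_mul, map_pow, Phi0_X0, Phi0_X1, Phi0_X2, Xm_11, Xm_21]
  change v1 * (u1 * vi + ui ^ 2 * vi * qq ^ 2) - (ui * qq) ^ 2 = u1
  linear_combination (u1 + ui ^ 2 * qq ^ 2) * v_vi

theorem Phi1_X2 : Phi 1 (X 2) = Xm (-1, -1) * (1 + Xm (3, 0) + Xm (0, 3)) := by
  have hq : qq = 1 + v1 ^ 3 := by rw [qq, Xm_03]
  rw [Phi_succ, Phi_zero, Tm_X2, map_sub, map_sub, map_mul, map_mul, map_mul, map_pow, map_pow,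
    map_pow, Phi0_X0, Phi0_X1, Phi0_X2, Xm_11, Xm_21, Xm_m11, Xm_03, Xm_30, hq]
  change v1 * (u1 * vi + ui ^ 2 * vi * (1 + v1 ^ 3) ^ 2) ^ 2 -
    (ui * (1 + v1 ^ 3)) ^ 2 * (u1 * vi + ui ^ 2 * vi * (1 + v1 ^ 3) ^ 2) -
    v1 ^ 2 * (ui * (1 + v1 ^ 3)) = ui * vi * (1 + u1 ^ 3 + v1 ^ 3)
  have h1 := u_ui
  have h2 := v_vi
  have e1 : v1 * (u1 * vi + ui ^ 2 * vi * (1 + v1 ^ 3) ^ 2) ^ 2 =
      (v1 * vi) * vi * (u1 + ui ^ 2 * (1 + v1 ^ 3) ^ 2) ^ 2 := by ring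
  have e2 : (ui * (1 + v1 ^ 3)) ^ 2 * (u1 * vi + ui ^ 2 * vi * (1 + v1 ^ 3) ^ 2) =
      vi * (ui ^ 2 * (1 + v1 ^ 3) ^ 2) * (u1 + ui ^ 2 * (1 + v1 ^ 3) ^ 2) := by ring
  rw [e1, e2, h2]
  have e3 : 1 * vi * (u1 + ui ^ 2 * (1 + v1 ^ 3) ^ 2) ^ 2 -
      vi * (ui ^ 2 * (1 + v1 ^ 3) ^ 2) * (u1 + ui ^ 2 * (1 + v1 ^ 3) ^ 2) =
      vi * u1 ^ 2 + (u1 * ui) * ui * vi * (1 + v1 ^ 3) ^ 2 := by ring
  rw [e3, h1]
  have e4 : ui * vi * (1 + u1 ^ 3 + v1 ^ 3) =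
      ui * vi * (1 + v1 ^ 3) + (u1 * ui) * vi * u1 ^ 2 := by ring
  rw [e4, h1]
  have e5 : v1 ^ 2 * (ui * (1 + v1 ^ 3)) = (v1 * vi) * v1 ^ 2 * ui * (1 + v1 ^ 3) := by
    rw [h2]; ring
  rw [e5]
  ring

instance : IsDomain Lam := inferInstance

abbrev FF : Type := FractionRing Lam

def ia : Lam →+* FF := algebraMap Lam FF

theorem ia_inj : Function.Injective ia := IsFractionRing.injective Lam FF

theorem ia_qq_ne : ia qq ≠ 0 := by
  intro h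
  exact qq_ne (ia_inj (by rw [h, map_zero]))

def kapHom : Multiplicative (ℤ × ℤ) →* FF where
  toFun e := ia (Xm (-(Multiplicative.toAdd e).2, (Multiplicative.toAdd e).1)) *
    (ia qq) ^ (Multiplicative.toAdd e).2
  map_one' := by
    change ia (Xm (-0, 0)) * (ia qq) ^ (0 : ℤ) = 1
    rw [zpow_zero, mul_one, neg_zero]
    exact map_one ia
  map_mul' := by
    intro e f
    simp only [toAdd_mul, Prod.fst_add, Prod.snd_add]
    rw [zpow_add₀ ia_qq_ne, neg_add]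
    have : Xm (-(Multiplicative.toAdd e).2 + -(Multiplicative.toAdd f).2,
        (Multiplicative.toAdd e).1 + (Multiplicative.toAdd f).1) =
        Xm (-(Multiplicative.toAdd e).2, (Multiplicative.toAdd e).1) *
        Xm (-(Multiplicative.toAdd f).2, (Multiplicative.toAdd f).1) := by
      rw [Xm_mul]; rfl
    rw [this, map_mul]
    ring

def kap : Lam →ₐ[ℂ] FF := AddMonoidAlgebra.lift ℂ FF (ℤ × ℤ) kapHom

theorem kap_Xm (e : ℤ × ℤ) : kap (Xm e) = ia (Xm (-e.2, e.1)) * (ia qq) ^ e.2 := by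
  unfold kap Xm
  rw [AddMonoidAlgebra.lift_single, one_smul]
  rfl

theorem kap_Phi (n : ℕ) (g : P3) : kap (Phi (n + 1) g) = ia (Phi n g) := by
  induction n generalizing g with
  | zero =>
    have h : kap.comp (Phi 1) = (IsScalarTower.toAlgHom ℂ Lam FF).comp Phi0 := by
      apply MvPolynomial.algHom_ext
      intro i
      rw [AlgHom.comp_apply, AlgHom.comp_apply]
      have hia : ∀ x, (IsScalarTower.toAlgHom ℂ Lam FF) x = ia x := fun _ => rfl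
      rw [hia]
      have hq := ia_qq_ne
      fin_cases i
      · change kap (Phi 1 (X 0)) = ia (Phi0 (X 0))
        rw [Phi1_X0, Phi0_X0, kap_Xm]
        simp
      · change kap (Phi 1 (X 1)) = ia (Phi0 (X 1))
        rw [Phi1_X1, Phi0_X1, kap_Xm, map_mul, zpow_one]
      · change kap (Phi 1 (X 2)) = ia (Phi0 (X 2))
        rw [Phi1_X2, Phi0_X2, map_mul, map_add, map_add, map_one, kap_Xm, kap_Xm, kap_Xm]
        have e1 : ia (Xm (-(3, 0).2, (3, 0).1) : Lam) * ia qq ^ ((3 : ℤ), (0 : ℤ)).2 =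
            ia (Xm (0, 3)) := by simp
        have e2 : ia (Xm (-(0, 3).2, (0, 3).1) : Lam) * ia qq ^ ((0 : ℤ), (3 : ℤ)).2 =
            ia (Xm (-3, 0)) * ia qq ^ 3 := by
          norm_num
        have e3 : ia (Xm (-(-1, -1).2, (-1, -1).1) : Lam) * ia qq ^ ((-1 : ℤ), (-1 : ℤ)).2 =
            ia (Xm (1, -1)) * (ia qq)⁻¹ := by
          norm_num
        rw [e1, e2, e3, map_add, map_mul, map_pow]
        have e4 : (1 : FF) + ia (Xm (0, 3)) = ia qq := by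
          unfold qq; rw [map_add, map_one]
        rw [e4]
        have e5 : ia (Xm (-2, -1)) = ia (Xm (1, -1)) * ia (Xm (-3, 0)) := by
          rw [← map_mul, Xm_mul]; rfl
        rw [e5]
        field_simp
    exact congrArg (fun F : P3 →ₐ[ℂ] FF => F g) h
  | succ n ih =>
    rw [Phi_succ (n + 1), ih, Phi_succ n]

end Pool.Agent.H993R3
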