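import Pool.Agent.H993R3.Supp

/-! Injectivity, lattice point count, and polynomials with prescribed leading form. -/

noncomputable section

namespace Pool.Agent.H993R3

open MvPolynomial (X)

/-- The exponent in the chart 1 of a monomial. -/
def ex (s : Fin 3 →₀ ℕ) : ℤ × ℤ := ((s 0 : ℤ) - s 2, (s 1 : ℤ) - s 2)

def q3 : Lam := 1 + Xm (3, 0) + Xm (0, 3)

theorem q3_mem : q3 - 1 ∈ L wt 1 := by
  have : q3 - 1 = Xm (3, 0) + Xm (0, 3) := by unfold q3; ring
  rw [this]
  exact add_mem (Xm_mem (by show 1 ≤ wt (3, 0); rw [wt_apply]; norm_num))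
    (Xm_mem (by show 1 ≤ wt (0, 3); rw [wt_apply]; norm_num))

theorem fin3_degree (s : Fin 3 →₀ ℕ) : s.degree = s 0 + s 1 + s 2 := by
  rw [Finsupp.degree_eq_sum, Fin.sum_univ_three]

theorem Phi1_monomial (s : Fin 3 →₀ ℕ) :
    Phi 1 (MvPolynomial.monomial s 1) = Xm (ex s) * q3 ^ (s 2) := by
  have h : MvPolynomial.monomial s (1 : ℂ) = X 0 ^ s 0 * X 1 ^ s 1 * X 2 ^ s 2 := by
    rw [MvPolynomial.monomial_eq, Finsupp.prod_fintype _ _ (by simp), Fin.prod_univ_three,
      map_one, one_mul]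
  rw [h, map_mul, map_mul, map_pow, map_pow, map_pow, Phi1_X0, Phi1_X1, Phi1_X2, mul_pow,
    Xm_pow, Xm_pow, Xm_pow, ← mul_assoc, Xm_mul, Xm_mul]
  congr 2
  unfold ex
  ext <;> simp <;> ring

theorem ex_inj (k : ℕ) : Set.InjOn ex {s | s.degree = k} := by
  intro s hs t ht h
  simp only [Set.mem_ofPred_eq, fin3_degree] at hs ht
  unfold ex at h
  simp only [Prod.mk.injEq] at h
  obtain ⟨h1, h2⟩ := h
  have e2 : s 2 = t 2 := by omega
  have e0 : s 0 = t 0 := by omega
  have e1 : s 1 = t 1 := by omega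
  ext i
  fin_cases i
  · exact e0
  · exact e1
  · exact e2

theorem Phi1_inj (k : ℕ) (g : P3) (hg : g ∈ Hom k) (h : Phi 1 g = 0) : g = 0 := by
  classical
  rw [MvPolynomial.mem_homogeneousSubmodule] at hg
  have hdeg : ∀ s ∈ g.support, s.degree = k := by
    intro s hs
    by_contra hc
    exact (MvPolynomial.mem_support_iff.mp hs) (hg.coeff_eq_zero hc)
  have h1 : Phi 1 g = ∑ s ∈ g.support, (MvPolynomial.coeff s g • Xm (ex s)) * q3 ^ (s 2) := by
    conv_lhs => rw [MvPolynomial.as_sum g, map_sum]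
    refine Finset.sum_congr rfl fun s _ => ?_
    have e4 : MvPolynomial.monomial s (MvPolynomial.coeff s g) =
        MvPolynomial.coeff s g • MvPolynomial.monomial s (1 : ℂ) := by
      rw [MvPolynomial.smul_monomial, smul_eq_mul, mul_one]
    rw [e4, map_smul, Phi1_monomial, smul_mul_assoc]
  have h2 := (compare wt g.support (fun s => MvPolynomial.coeff s g) ex
    ((ex_inj k).mono fun s hs => hdeg s hs) (fun s => s 2) q3 0 q3_mem 0
    (by rw [zero_mul, ← h1, h])).1
  by_contra hne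
  obtain ⟨s, hs⟩ := MvPolynomial.ne_zero_iff.1 hne
  have h3 := (h2 (wt (ex s) + 1)).1 (Submodule.zero_mem _) s (MvPolynomial.mem_support_iff.2 hs) hs
  omega

theorem Phi_inj (n k : ℕ) (g : P3) (hg : g ∈ Hom k) (h : Phi (n + 1) g = 0) : g = 0 := by
  induction n with
  | zero => exact Phi1_inj k g hg h
  | succ n ih =>
    apply ih
    have h1 := kap_Phi (n + 1) g
    rw [h, map_zero] at h1
    exact ia_inj (by rw [← h1, map_zero])

/-- the mutation of exponents -/
def mutE : (ℤ × ℤ) ≃ (ℤ × ℤ) where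
  toFun e := (-e.2 + 3 * min e.1 0, e.1)
  invFun f := (f.2, -f.1 + 3 * min f.2 0)
  left_inv := by
    rintro ⟨a, b⟩
    ext
    · rfl
    · simp only; ring
  right_inv := by
    rintro ⟨a, b⟩
    ext
    · simp only; ring
    · rfl

theorem mut_mem (b c k : ℤ) (hb : 0 < b) (hc : 0 < c) (he : 0 < 3 * c - b) (e : ℤ × ℤ) :
    e ∈ Cn c (3 * c - b) k ↔ mutE e ∈ Cn b c k := by
  obtain ⟨i, j⟩ := e
  have hmut : mutE (i, j) = (-j + 3 * min i 0, i) := rfl
  rw [hmut]
  unfold Cn
  simp only [Set.mem_ofPred_eq]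
  rcases le_total 0 i with h | h
  · rw [min_eq_right h]
    have h1 : 0 ≤ b * i := by positivity
    have h2 : 0 ≤ c * i := by positivity
    have h3 : 0 ≤ (3 * c - b) * i := by positivity
    constructor
    · rintro ⟨a1, a2, a3, a4⟩
      refine ⟨by nlinarith, by nlinarith, by nlinarith, ?_⟩
      have : k - (b * (-j + 3 * 0) + c * i) = (k - (c * i + (3 * c - b) * j)) + 3 * (c * j) := by ring
      rw [this]
      exact dvd_add a4 (dvd_mul_right _ _)
    · rintro ⟨a1, a2, a3, a4⟩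
      refine ⟨by nlinarith, by nlinarith, by nlinarith, ?_⟩
      have : k - (c * i + (3 * c - b) * j) = (k - (b * (-j + 3 * 0) + c * i)) - 3 * (c * j) := by ring
      rw [this]
      exact dvd_sub a4 (dvd_mul_right _ _)
  · rw [min_eq_left h]
    have h1 : b * i ≤ 0 := by nlinarith
    have h2 : c * i ≤ 0 := by nlinarith
    have h3 : (3 * c - b) * i ≤ 0 := by nlinarith
    constructor
    · rintro ⟨a1, a2, a3, a4⟩
      refine ⟨by nlinarith, by nlinarith, by nlinarith, ?_⟩
      have : k - (b * (-j + 3 * i) + c * i) = (k - (c * i + (3 * c - b) * j)) + 3 * (c * j - b * i) := by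
        ring
      rw [this]
      exact dvd_add a4 (dvd_mul_right _ _)
    · rintro ⟨a1, a2, a3, a4⟩
      refine ⟨by nlinarith, by nlinarith, by nlinarith, ?_⟩
      have : k - (c * i + (3 * c - b) * j) = (k - (b * (-j + 3 * i) + c * i)) - 3 * (c * j - b * i) := by
        ring
      rw [this]
      exact dvd_sub a4 (dvd_mul_right _ _)

def CnEquiv (n : ℕ) (k : ℤ) : Cn (d (n + 1)) (d (n + 2)) k ≃ Cn (d n) (d (n + 1)) k :=
  mutE.subtypeEquiv fun e => by
    rw [d_succ2]
    have h := d_pos n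
    have h2 := d_pos (n + 1)
    rw [d_succ2] at h2
    exact mut_mem (d n) (d (n + 1)) k h.1 h.2.1 h2.2.1 e

def CnBase (k : ℕ) : {s : Fin 3 →₀ ℕ | s.degree = k} ≃ Cn (d 1) (d 2) k :=
  Equiv.ofBijective (fun s => ⟨ex s.1, by
    have h1 := s.2
    simp only [Set.mem_ofPred_eq, fin3_degree] at h1
    have hd1 : d 1 = 1 := rfl
    have hd2 : d 2 = 1 := rfl
    rw [hd1, hd2]
    unfold ex Cn
    simp only [Set.mem_ofPred_eq]
    refine ⟨by omega, by omega, by omega, by omega⟩⟩) (by
    constructor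
    · intro s t h
      exact Subtype.ext (ex_inj k s.2 t.2 (congrArg Subtype.val h))
    · rintro ⟨⟨i, j⟩, he⟩
      have hd1 : d 1 = 1 := rfl
      have hd2 : d 2 = 1 := rfl
      rw [hd1, hd2] at he
      unfold Cn at he
      simp only [Set.mem_ofPred_eq] at he
      obtain ⟨a1, a2, a3, a4, ha4⟩ := he
      let s : Fin 3 →₀ ℕ := Finsupp.equivFunOnFinite.symm
        ![(a4 + i).toNat, (a4 + j).toNat, a4.toNat]
      have hs0 : s 0 = (a4 + i).toNat := rfl
      have hs1 : s 1 = (a4 + j).toNat := rfl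
      have hs2 : s 2 = a4.toNat := rfl
      refine ⟨⟨s, ?_⟩, ?_⟩
      · simp only [Set.mem_ofPred_eq, fin3_degree, hs0, hs1, hs2]
        omega
      · apply Subtype.ext
        simp only [ex, hs0, hs1, hs2]
        ext
        · simp only; omega
        · simp only; omega)

def CnAll (k : ℕ) : ∀ n : ℕ, {s : Fin 3 →₀ ℕ | s.degree = k} ≃ Cn (d (n + 1)) (d (n + 2)) k
  | 0 => CnBase k
  | n + 1 => (CnAll k n).trans (CnEquiv (n + 1) k).symm

instance finDeg (k : ℕ) : Finite {s : Fin 3 →₀ ℕ | s.degree = k} :=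
  (Finsupp.finite_of_degree_eq k).to_subtype

instance finCn (k n : ℕ) : Finite (Cn (d (n + 1)) (d (n + 2)) k) := Finite.of_equiv _ (CnAll k n)

theorem card_le_finrank (k : ℕ) :
    Nat.card {s : Fin 3 →₀ ℕ | s.degree = k} ≤ Module.finrank ℂ (Hom k) := by
  classical
  have : Module.Finite ℂ (Hom k) := Module.Finite.iff_fg.2 (MvPolynomial.homogeneousSubmodule_fg (Fin 3) ℂ k)
  have := Fintype.ofFinite {s : Fin 3 →₀ ℕ | s.degree = k}
  rw [Nat.card_eq_fintype_card]
  let v : {s : Fin 3 →₀ ℕ | s.degree = k} → Hom k := fun s =>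
    ⟨MvPolynomial.monomial s.1 1, MvPolynomial.isHomogeneous_monomial 1 s.2⟩
  have hv : LinearIndependent ℂ v := by
    apply LinearIndependent.of_comp (Hom k).subtype
    have h1 := (MvPolynomial.basisMonomials (Fin 3) ℂ).linearIndependent
    have h2 := h1.comp (fun s : {s : Fin 3 →₀ ℕ | s.degree = k} => s.1) Subtype.val_injective
    have h3 : (Hom k).subtype ∘ v = (MvPolynomial.basisMonomials (Fin 3) ℂ) ∘
        fun s : {s : Fin 3 →₀ ℕ | s.degree = k} => s.1 := by
      funext s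
      simp [v, MvPolynomial.coe_basisMonomials]
    rw [h3]
    exact h2
  exact hv.fintype_card_le_finrank

/-- the coefficients at the points of the polygon -/
def res (n k : ℕ) : Hom k →ₗ[ℂ] (Cn (d (n + 1)) (d (n + 2)) k → ℂ) where
  toFun g e := (Phi (n + 1) g.1).coeff e.1
  map_add' g h := by
    funext e
    rw [Submodule.coe_add, map_add]
    rfl
  map_smul' c g := by
    funext e
    rw [Submodule.coe_smul, map_smul]
    rfl

theorem exists_lead (n k : ℕ) (g : P3) (hg : g ∈ Hom k) (h : g ≠ 0) :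
    ∃ m, Phi (n + 1) g ∈ L wt m ∧ ∃ e ∈ Cn (d (n + 1)) (d (n + 2)) k, wt e = m ∧
      (Phi (n + 1) g).coeff e ≠ 0 := by
  classical
  have hne : Phi (n + 1) g ≠ 0 := fun hc => h (Phi_inj n k g hg hc)
  have hs : (Phi (n + 1) g).coeff.support.Nonempty := by
    rw [Finsupp.support_nonempty_iff]
    intro hc
    exact hne (AddMonoidAlgebra.coeff_eq_zero.1 hc)
  obtain ⟨e, he, hmin⟩ := Finset.exists_min_image _ wt hs
  have hL : Phi (n + 1) g ∈ L wt (wt e) := fun f hf => hmin f (Finsupp.mem_support_iff.2 hf)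
  have he' := Finsupp.mem_support_iff.1 he
  exact ⟨wt e, hL, e, lead_supp n k g hg _ hL e rfl he', rfl, he'⟩

theorem res_inj (n k : ℕ) : Function.Injective (res n k) := by
  rw [← LinearMap.ker_eq_bot, LinearMap.ker_eq_bot']
  intro g hg
  by_contra hne
  obtain ⟨m, _, e, he, _, h4⟩ := exists_lead n k g.1 g.2 (fun hc => hne (Subtype.ext hc))
  exact h4 (congrFun hg ⟨e, he⟩)

theorem res_surj (n k : ℕ) : Function.Surjective (res n k) := by
  classical
  have : Module.Finite ℂ (Hom k) := Module.Finite.iff_fg.2 (MvPolynomial.homogeneousSubmodule_fg (Fin 3) ℂ k)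
  have := Fintype.ofFinite (Cn (d (n + 1)) (d (n + 2)) k)
  have h1 : Module.finrank ℂ (Cn (d (n + 1)) (d (n + 2)) k → ℂ) ≤ Module.finrank ℂ (Hom k) := by
    rw [Module.finrank_fintype_fun_eq_card, ← Nat.card_eq_fintype_card,
      ← Nat.card_congr (CnAll k n)]
    exact card_le_finrank k
  have h2 : Module.finrank ℂ (Hom k) = Module.finrank ℂ (Cn (d (n + 1)) (d (n + 2)) k → ℂ) :=
    le_antisymm (LinearMap.finrank_le_finrank_of_injective (res_inj n k)) h1
  exact (LinearMap.injective_iff_surjective_of_finrank_eq_finrank h2).1 (res_inj n k)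

/-- Every point of the polygon is the leading exponent of a homogeneous polynomial. -/
theorem exists_basis (n k : ℕ) (e : ℤ × ℤ) (he : e ∈ Cn (d (n + 1)) (d (n + 2)) k) :
    ∃ g ∈ Hom k, Phi (n + 1) g ∈ L wt (wt e) ∧ Phi (n + 1) g - Xm e ∈ L wt (wt e + 1) := by
  classical
  obtain ⟨g, hg⟩ := res_surj n k (fun f => if f.1 = e then 1 else 0)
  have hcoeff : ∀ f ∈ Cn (d (n + 1)) (d (n + 2)) k,
      (Phi (n + 1) g.1).coeff f = if f = e then 1 else 0 := by
    intro f hf
    exact congrFun hg ⟨f, hf⟩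
  have hg0 : g.1 ≠ 0 := by
    intro hc
    have h1 := hcoeff e he
    rw [hc, map_zero, if_pos rfl] at h1
    exact zero_ne_one h1
  obtain ⟨m, h1, f, hf, hfm, hne⟩ := exists_lead n k g.1 g.2 hg0
  rw [hcoeff f hf] at hne
  have hfe : f = e := by
    by_contra hc
    rw [if_neg hc] at hne
    exact hne rfl
  subst hfe
  rw [← hfm] at h1
  refine ⟨g.1, g.2, h1, ?_⟩
  intro x hx
  rw [AddMonoidAlgebra.coeff_sub, Finsupp.sub_apply, coeff_Xm] at hx
  have h2 : wt f ≤ wt x := by
    by_cases h3 : f = x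
    · rw [h3]
    · rw [if_neg h3, sub_zero] at hx
      exact h1 x hx
  rcases eq_or_lt_of_le h2 with h3 | h3
  · exfalso
    apply hx
    by_cases h4 : f = x
    · subst h4
      rw [if_pos rfl, hcoeff f hf, if_pos rfl, sub_self]
    · rw [if_neg h4, sub_zero]
      by_contra h5
      have h6 := lead_supp n k g.1 g.2 _ h1 x h3.symm h5
      rw [hcoeff x h6, if_neg (fun h => h4 h.symm)] at h5
      exact h5 rfl
  · exact h3

end Pool.Agent.H993R3
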