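import Pool.Agent.Helper774.KSing.Bd
import Pool.Agent.H993R3.Cnt

/-! The toric surfaces `P(1, b², c²)` with `b² + c² + 1 = 3bc`. -/

noncomputable section

namespace Pool.Agent.H993R3

open Pool.Agent.Helper774.KSing
open Pool.Agent.Helper774.KStab (TorusField)

/-- The rays of the fan of `P(1, b², c²)`, `c = b + 3g`. -/
def ray (b g : ℤ) : Fin 3 → Fin 2 → ℤ
  | 0 => ![g, -(b + 3 * g)]
  | 1 => ![b + 4 * g, -(b + 3 * g)]
  | 2 => ![g - b, 2 * b - 3 * g]

/-- rays of the three maximal cones -/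
def idx : Fin 3 → Fin 2 → Fin 3
  | 0 => ![1, 2]
  | 1 => ![0, 1]
  | 2 => ![2, 0]

def opp : Fin 3 → Fin 3
  | 0 => 0
  | 1 => 2
  | 2 => 1

def vtx (b g : ℤ) : Fin 3 → Fin 2 → ℤ
  | 0 => ![b * (b + 3 * g) * (-3 * b), b * (b + 3 * g) * (-b - (b + 3 * g))]
  | 1 => ![0, b]
  | 2 => ![3 * (b + 3 * g), b + 3 * g]

def pr (u v : Fin 2 → ℤ) : ℤ := u 0 * v 0 + u 1 * v 1

def Mx (b g : ℤ) (σ : Fin 3) : Matrix (Fin 2) (Fin 2) ℤ := Matrix.of fun i j => ray b g (idx σ j) i

theorem vecMul_Mx (b g : ℤ) (σ : Fin 3) (u : Fin 2 → ℤ) (j : Fin 2) :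
    Matrix.vecMul u (Mx b g σ) j = pr u (ray b g (idx σ j)) := by
  simp [Matrix.vecMul, dotProduct, Fin.sum_univ_two, Mx, pr]

def gap (b g : ℤ) : Fin 3 → ℤ
  | 0 => 3 * b ^ 2 * (b + 3 * g) ^ 2
  | 1 => 3 * b ^ 2
  | 2 => 3 * (b + 3 * g) ^ 2

theorem table (b g : ℤ) (hrel : b ^ 2 + 3 * b * g = 9 * g ^ 2 + 1) (σ ρ : Fin 3) :
    pr (vtx b g σ) (ray b g ρ) = -(b * (b + 3 * g)) + if ρ = opp σ then gap b g σ else 0 := by
  fin_cases σ <;> fin_cases ρ
  · simp [pr, vtx, ray, opp, gap]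
    linear_combination (-(b * (b + 3 * g))) * hrel
  · simp [pr, vtx, ray, opp]
    linear_combination (-(b * (b + 3 * g))) * hrel
  · simp [pr, vtx, ray, opp]
    linear_combination (-(b * (b + 3 * g))) * hrel
  · simp [pr, vtx, ray, opp]
    ring
  · simp [pr, vtx, ray, opp]
    ring
  · simp [pr, vtx, ray, opp, gap]
    ring
  · simp [pr, vtx, ray, opp]
    ring
  · simp [pr, vtx, ray, opp, gap]
    ring
  · simp [pr, vtx, ray, opp]
    ring

theorem gap_pos (b g : ℤ) (hb : 0 < b) (hc : 0 < b + 3 * g) (σ : Fin 3) : 0 < gap b g σ := by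
  fin_cases σ <;> simp only [gap] <;> positivity

/-- The data of the toric surface `P(1, b², c²)`. -/
def dataT (b g : ℤ) (hb : 0 < b) (hc : 0 < b + 3 * g) (hrel : b ^ 2 + 3 * b * g = 9 * g ^ 2 + 1) :
    SData 2 where
  pos := by norm_num
  ι := Fin 3
  R := Mx b g
  det_ne := by
    intro σ
    fin_cases σ
    · have : (Mx b g 0).det = 1 := by
        simp [Mx, Matrix.det_fin_two, ray, idx]
        linear_combination hrel
      show (Mx b g 0).det ≠ 0
      rw [this]; norm_num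
    · have : (Mx b g 1).det = (b + 3 * g) ^ 2 := by
        simp [Mx, Matrix.det_fin_two, ray, idx]
        ring
      show (Mx b g 1).det ≠ 0
      rw [this]; positivity
    · have : (Mx b g 2).det = b ^ 2 := by
        simp [Mx, Matrix.det_fin_two, ray, idx]
        ring
      show (Mx b g 2).det ≠ 0
      rw [this]; positivity
  prim := by
    have key : ∀ ρ : Fin 3, ∃ u, pr u (ray b g ρ) = 1 := by
      intro ρ
      fin_cases ρ
      · refine ⟨![-9 * g, -b], ?_⟩
        simp [pr, ray]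
        linear_combination hrel
      · refine ⟨![2 * b - 3 * g, -(g - b)], ?_⟩
        simp [pr, ray]
        linear_combination hrel
      · refine ⟨![b + 3 * g, b + 4 * g], ?_⟩
        simp [pr, ray]
        linear_combination hrel
    intro σ j
    obtain ⟨u, hu⟩ := key (idx σ j)
    exact ⟨u, by rw [vecMul_Mx, hu]⟩
  r := (b * (b + 3 * g)).toNat
  r_pos := by
    have : 0 < b * (b + 3 * g) := by positivity
    omega
  w := vtx b g
  w_self := by
    intro σ j
    have h0 : 0 < b * (b + 3 * g) := by positivity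
    rw [vecMul_Mx, table b g hrel, if_neg, Int.toNat_of_nonneg h0.le, add_zero]
    revert σ j
    decide
  vert := by
    intro σ τ j
    have h0 : 0 < b * (b + 3 * g) := by positivity
    rw [vecMul_Mx, table b g hrel, Int.toNat_of_nonneg h0.le]
    split_ifs
    · have := gap_pos b g hb hc σ
      linarith
    · linarith
  strict := by
    intro σ τ j h
    have h0 : 0 < b * (b + 3 * g) := by positivity
    rw [vecMul_Mx, table b g hrel, Int.toNat_of_nonneg h0.le] at h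
    have h1 : idx τ j ≠ opp σ := by
      intro hc'
      rw [if_pos hc'] at h
      have := gap_pos b g hb hc σ
      linarith
    have h2 : ∀ σ τ : Fin 3, ∀ j, idx τ j ≠ opp σ → ∃ k, idx τ j = idx σ k := by decide
    obtain ⟨k, hk⟩ := h2 σ τ j h1
    refine ⟨k, fun i => ?_⟩
    show ray b g (idx τ j) i = ray b g (idx σ k) i
    rw [hk]
  nbr := by
    intro σ i
    have h0 : 0 < b * (b + 3 * g) := by positivity
    have h2 : ∀ (σ : Fin 3) (i : Fin 2), ∃ τ, opp τ = idx σ i ∧ ∀ j, j ≠ i → idx σ j ≠ opp τ := by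
      decide
    obtain ⟨τ, h3, h4⟩ := h2 σ i
    refine ⟨τ, fun j hj => ?_, ?_⟩
    · rw [vecMul_Mx, table b g hrel, if_neg (h4 j hj), Int.toNat_of_nonneg h0.le, add_zero]
    · rw [vecMul_Mx, table b g hrel, if_pos h3.symm, Int.toNat_of_nonneg h0.le]
      have := gap_pos b g hb hc τ
      intro h
      linarith
  ne := ⟨(0 : Fin 3)⟩

/-- conversion of exponents -/
def cv (u : Fin 2 → ℤ) : ℤ × ℤ := (u 0, -u 0 + 3 * u 1)

theorem cv_inj : Function.Injective cv := by
  intro u v h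
  unfold cv at h
  simp only [Prod.mk.injEq] at h
  obtain ⟨h1, h2⟩ := h
  ext i
  fin_cases i
  · exact h1
  · show u 1 = v 1
    omega

theorem mem_pts (b g : ℤ) (hb : 0 < b) (hc : 0 < b + 3 * g)
    (hrel : b ^ 2 + 3 * b * g = 9 * g ^ 2 + 1) (m : ℕ) (u : Fin 2 → ℤ) :
    u ∈ (dataT b g hb hc hrel).pts m ↔ cv u ∈ Cn b (b + 3 * g) (3 * m) := by
  have h1 : u ∈ (dataT b g hb hc hrel).pts m ↔ ∀ ρ : Fin 3, -(m : ℤ) ≤ pr u (ray b g ρ) := by
    constructor
    · intro h ρ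
      have h2 : ∀ ρ : Fin 3, ∃ (σ : Fin 3) (j : Fin 2), idx σ j = ρ := by decide
      obtain ⟨σ, j, rfl⟩ := h2 ρ
      rw [← vecMul_Mx]
      exact h σ j
    · intro h σ j
      have h2 := h (idx σ j)
      exact h2.trans_eq (vecMul_Mx b g σ u j).symm
  rw [h1]
  unfold Cn cv
  simp only [Set.mem_ofPred_eq]
  constructor
  · intro h
    have a0 := h 0
    have a1 := h 1
    have a2 := h 2
    simp [pr, ray] at a0 a1 a2
    refine ⟨by nlinarith, by nlinarith, by nlinarith, ?_⟩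
    exact ⟨m + (g * u 0 - (b + 3 * g) * u 1), by ring⟩
  · rintro ⟨a0, a1, a2, _⟩ ρ
    fin_cases ρ
    · simp [pr, ray]; nlinarith
    · simp [pr, ray]; nlinarith
    · simp [pr, ray]; nlinarith

theorem cv_surj (b g : ℤ) (hrel : b ^ 2 + 3 * b * g = 9 * g ^ 2 + 1) (k : ℤ) (e : ℤ × ℤ)
    (he : e ∈ Cn b (b + 3 * g) (3 * k)) : ∃ u, cv u = e := by
  obtain ⟨_, _, _, h⟩ := he
  have h1 : (3 : ℤ) ∣ b * (e.1 + e.2) := by
    have h2 : b * (e.1 + e.2) = 3 * (k - g * e.2) - (3 * k - (b * e.1 + (b + 3 * g) * e.2)) := by ring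
    rw [h2]
    exact dvd_sub (dvd_mul_right _ _) h
  have h3 : IsCoprime (3 : ℤ) b := ⟨b * g - 3 * g ^ 2, b, by linear_combination hrel⟩
  obtain ⟨y, hy⟩ := h3.dvd_of_dvd_mul_left h1
  refine ⟨![e.1, y], ?_⟩
  unfold cv
  ext
  · rfl
  · show -e.1 + 3 * y = e.2
    omega

end Pool.Agent.H993R3
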