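import Pool.Agent.Helper774.KSing.Defs

/-!
Special degenerations of Fano varieties and bounded sets of varieties, in the language of
`Pool.Agent.Helper774.KSing.Defs` (normal complete complex varieties given by their function field
and finitely many affine charts).
-/

noncomputable section

namespace Pool.Agent.H993R3

open Pool.Agent.Helper774.KSing

section Filtrations

variable {K K₀ : Type} [Field K] [Algebra ℂ K] [Field K₀] [Algebra ℂ K₀]

/-- `F` is a decreasing, multiplicative, exhaustive and separated `ℤ`-filtration of the graded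
algebra `⊕_m R_m` (`F m l` stands for `F^l R_m`). -/
structure IsFiltration (R : ℕ → Submodule ℂ K) (F : ℕ → ℤ → Submodule ℂ K) : Prop where
  le : ∀ m l, F m l ≤ R m
  decreasing : ∀ m l, F m (l + 1) ≤ F m l
  mul : ∀ m l m' l', ∀ s ∈ F m l, ∀ s' ∈ F m' l', s * s' ∈ F (m + m') (l + l')
  exhaustive : ∀ m, ∃ l, F m l = R m
  separated : ∀ m, ∃ l, F m l = ⊥

/-- The Rees algebra `⊕_{m, l} F^{-l} R_m T^m t^l` of a filtration `F` of a graded subalgebra
`⊕_m R_m T^m` of `K[T]`, as a subset of `K[T, t, 1/t]`; the monomial `T^m t^l` is the element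
`(m, l)` of `ℕ × ℤ`. -/
def reesSet (F : ℕ → ℤ → Submodule ℂ K) : Set (AddMonoidAlgebra K (ℕ × ℤ)) :=
  {a | ∀ (m : ℕ) (l : ℤ), a.coeff (m, l) ∈ F m (-l)}

/-- The Rees algebra is a finitely generated `ℂ`-algebra (`t` is an element of it). -/
def ReesFG (F : ℕ → ℤ → Submodule ℂ K) : Prop :=
  ∃ G : Set (AddMonoidAlgebra K (ℕ × ℤ)), G.Finite ∧
    (Algebra.adjoin ℂ G : Set (AddMonoidAlgebra K (ℕ × ℤ))) = reesSet F

/-- The image of `F^l R_m` under the symbol map `sym m l`. -/
def symImage (F : ℕ → ℤ → Submodule ℂ K) (sym : ℕ → ℤ → K →ₗ[ℂ] K₀) (m : ℕ) (l : ℤ) :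
    Submodule ℂ K₀ := (F m l).map (sym m l)

/-- The maps `sym m l`, restricted to `F^l R_m`, have the kernels `F^(l+1) R_m` and are
multiplicative: they induce an injective homomorphism on each graded piece of
`gr_F R = ⊕_{m, l} F^l R_m / F^(l+1) R_m`. (Only the restriction of `sym m l` to the subspace
`F^l R_m` of `K` matters.) -/
def IsSymbolMap (F : ℕ → ℤ → Submodule ℂ K) (sym : ℕ → ℤ → K →ₗ[ℂ] K₀) : Prop :=
  (∀ m l, ∀ s ∈ F m l, (sym m l s = 0 ↔ s ∈ F m (l + 1))) ∧
  ∀ m l m' l', ∀ s ∈ F m l, ∀ s' ∈ F m' l',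
    sym (m + m') (l + l') (s * s') = sym m l s * sym m' l' s'

/-- The degree `m` piece `R₀` of a graded algebra is the direct sum of the images of the `F^l R_m`,
`l ∈ ℤ`, under the symbol maps. -/
def IsDirectSum (F : ℕ → ℤ → Submodule ℂ K) (sym : ℕ → ℤ → K →ₗ[ℂ] K₀) (m : ℕ)
    (R₀ : Submodule ℂ K₀) : Prop :=
  iSupIndep (symImage F sym m) ∧ ⨆ l, symImage F sym m l = R₀

end Filtrations

/-- A special degeneration (special test configuration) of the Fano variety `X` with central
fibre `X₀`, given by its algebra of sections.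

A special test configuration `π : 𝒳 → 𝔸¹` of `X` is `𝒳 = Proj 𝒜` over `ℂ[t]`, where
`𝒜 = ⊕_m H⁰(𝒳, -r m K_{𝒳/𝔸¹})`, `r ≥ 1` divisible enough. As `𝒳` is `X × 𝔾_m` over `𝔸¹ ∖ 0`, the
`𝔾_m`-action identifies `𝒜` with the Rees algebra `⊕_{m, l} F^{-l} R_m t^l` of a decreasing,
multiplicative, exhaustive and separated `ℤ`-filtration `F` of the section ring
`R = ⊕_m H⁰(X, -r m K_X)`; the Rees algebra is finitely generated (`𝒳` is projective over `𝔸¹`), and
its reduction modulo `t`, the associated graded ring of `F`, is the section ring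
`⊕_m H⁰(X₀, -r m K_{X₀})` of the central fibre. Conversely every such filtration whose associated
graded ring is the section ring of a klt Fano variety `X₀` comes from a special test configuration
with central fibre `X₀`: `𝒳 = Proj` of the Rees algebra is flat over `𝔸¹` and normal, since its fibre
`X₀` over `0` is a normal principal divisor, and a multiple of `O(1)` is linearly equivalent to a
multiple of `-K_{𝒳/𝔸¹}`, because it is so away from the principal prime divisor `X₀`. -/
structure SpecialDegeneration (X X₀ : Variety) where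
  /-- the test configuration is polarised by `-r K` -/
  r : ℕ
  r_pos : 1 ≤ r
  /-- `F m l` is `F^l H⁰(X, -r m K_X)` -/
  F : ℕ → ℤ → Submodule ℂ X.K
  filtration : IsFiltration (fun m => X.antican (r * m)) F
  fg : ReesFG F
  /-- the symbol maps `F^l R_m → F^l R_m / F^(l+1) R_m ⊆ H⁰(X₀, -r m K_{X₀})`, extended to `X.K` -/
  sym : ℕ → ℤ → X.K →ₗ[ℂ] X₀.K
  symbol : IsSymbolMap F sym
  /-- `H⁰(X₀, -r m K_{X₀})` is the degree `m` piece of the associated graded ring of `F` -/
  graded : ∀ m, IsDirectSum F sym m (X₀.antican (r * m))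

/-- The central fibres of the special degenerations of `X`: the klt Fano varieties `X₀` such that
there is a special degeneration of `X` with central fibre `X₀`. -/
def centralFibres (X : Variety) : Set Variety :=
  {X₀ | X₀.IsFano ∧ X₀.IsKlt ∧ Nonempty (SpecialDegeneration X X₀)}

/-- The affine coordinate ring `ℂ[ξ j / ξ i : j]`. -/
def affChart {K : Type} [Field K] [Algebra ℂ K] {N : ℕ} (ξ : Fin (N + 1) → K) (i : Fin (N + 1)) :
    Subalgebra ℂ K :=
  Algebra.adjoin ℂ (Set.range fun j => ξ j / ξ i)

/-- The rational functions `ξ 0, …, ξ N` are the homogeneous coordinates of a closed embedding of `X`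
in `ℙ^N`: the points of `X` (which are subrings of the function field) are the points of the closed
subvariety of `ℙ^N` with the generic point `(ξ 0 : … : ξ N)`, whose affine charts are the spectra
of the algebras `ℂ[ξ j / ξ i : j]` for the `i` with `ξ i ≠ 0`. -/
def IsEmbedding (X : Variety) {N : ℕ} (ξ : Fin (N + 1) → X.K) : Prop :=
  X.points = {A | ∃ i, ξ i ≠ 0 ∧
    ∃ p : Ideal (affChart ξ i), p.IsPrime ∧ A = locRing (affChart ξ i) p}

/-- The polynomial `G` lies in the saturation of the ideal `J`. -/
def InSaturation {N : ℕ} (J : Ideal (MvPolynomial (Fin (N + 1)) ℂ))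
    (G : MvPolynomial (Fin (N + 1)) ℂ) : Prop :=
  ∃ e : ℕ, ∀ i, MvPolynomial.X i ^ e * G ∈ J

/-- The variety `X` is isomorphic to the closed subscheme of `ℙ^N` defined by the homogeneous ideal
`J`: it has a closed embedding in `ℙ^N`, with homogeneous coordinates `ξ`, for which the homogeneous
ideal of the image is the saturation of `J`. -/
def IsSubscheme (X : Variety) {N : ℕ} (J : Ideal (MvPolynomial (Fin (N + 1)) ℂ)) : Prop :=
  ∃ ξ : Fin (N + 1) → X.K, IsEmbedding X ξ ∧
    ∀ (k : ℕ) (G : MvPolynomial (Fin (N + 1)) ℂ), G.IsHomogeneous k →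
      (MvPolynomial.aeval ξ G = 0 ↔ InSaturation J G)

/-- A homogeneous ideal of a polynomial ring: it is generated by homogeneous polynomials. -/
def IsHomog {A : Type} [CommRing A] {N : ℕ} (I : Ideal (MvPolynomial (Fin (N + 1)) A)) : Prop :=
  ∃ S : Set (MvPolynomial (Fin (N + 1)) A), (∀ G ∈ S, ∃ k, G.IsHomogeneous k) ∧ Ideal.span S = I

/-- The homogeneous ideal of the fibre over the closed point `t` of `Spec A` of the closed
subscheme of `ℙ^N_A` defined by `I`. -/
def fibreIdeal {A : Type} [CommRing A] [Algebra ℂ A] {N : ℕ}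
    (I : Ideal (MvPolynomial (Fin (N + 1)) A)) (t : A →ₐ[ℂ] ℂ) :
    Ideal (MvPolynomial (Fin (N + 1)) ℂ) :=
  I.map (MvPolynomial.map (t : A →+* ℂ))

/-- A set of varieties is bounded: there is a projective morphism `𝒵 → T`, `T` of finite type over
`ℂ`, such that every member of the set is isomorphic to the fibre over a closed point of `T`. As `T`
may be replaced by the disjoint union of finitely many affine open subschemes, we may take
`T = Spec A` with `A` a finitely generated `ℂ`-algebra, and `𝒵` is the closed subscheme of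
`ℙ^N_A` defined by a homogeneous ideal `I` of `A[x_0, …, x_N]`. -/
def IsBoundedFamily (S : Set Variety) : Prop :=
  ∃ (N : ℕ) (A : Type) (_ : CommRing A) (_ : Algebra ℂ A)
    (I : Ideal (MvPolynomial (Fin (N + 1)) A)),
    Algebra.FiniteType ℂ A ∧ IsHomog I ∧
      ∀ X ∈ S, ∃ t : A →ₐ[ℂ] ℂ, IsSubscheme X (fibreIdeal I t)

end Pool.Agent.H993R3
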