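import Pool.Agent.H993R3.Clu

/-! Degree bounds and supports of the leading forms in the cluster charts. -/

noncomputable section

namespace Pool.Agent.H993R3

open MvPolynomial (X)

def rho (e : ℤ × ℤ) : ℤ × ℤ := (-e.2, e.1)
def rho' (e : ℤ × ℤ) : ℤ × ℤ := (-e.2, e.1 + 3 * e.2)

theorem rho_inj : Function.Injective rho := by
  rintro ⟨a, b⟩ ⟨c, d⟩ h
  simp only [rho, Prod.mk.injEq, neg_inj] at h
  rw [h.1, h.2]

theorem rho'_inj : Function.Injective rho' := by
  rintro ⟨a, b⟩ ⟨c, d⟩ h
  simp only [rho', Prod.mk.injEq, neg_inj] at h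
  obtain ⟨h1, h2⟩ := h
  subst h1
  rw [add_right_cancel h2]

theorem nsmul_03 (k : ℕ) : k • ((0 : ℤ), (3 : ℤ)) = (0, 3 * (k : ℤ)) := by
  ext
  · simp
  · simp [mul_comm]

/-- clearing denominators -/
theorem clear_den (h B : Lam) (hB : kap h = ia B) : ∃ N : ℕ,
    B * qq ^ N = ∑ e ∈ h.coeff.support, (h.coeff e • Xm (rho e)) * qq ^ (e.2 + N).toNat ∧
    ∀ e ∈ h.coeff.support, 0 ≤ e.2 + N := by
  classical
  set N : ℕ := ∑ e ∈ h.coeff.support, e.2.natAbs with hN
  have hN1 : ∀ e ∈ h.coeff.support, 0 ≤ e.2 + N := by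
    intro e he
    have h1 : e.2.natAbs ≤ N := Finset.single_le_sum (f := fun e : ℤ × ℤ => e.2.natAbs)
      (fun _ _ => Nat.zero_le _) he
    omega
  refine ⟨N, ?_, hN1⟩
  apply ia_inj
  rw [map_mul, ← hB, map_sum, map_pow]
  have hs : ∀ (c : ℂ) (p : Lam), ia (c • p) = c • ia p := by
    intro c p
    exact map_smul (IsScalarTower.toAlgHom ℂ Lam FF) c p
  conv_lhs => rw [sum_Xm h]
  unfold Finsupp.sum
  rw [map_sum, Finset.sum_mul]
  refine Finset.sum_congr rfl fun e he => ?_
  rw [map_smul, kap_Xm, map_mul, hs, map_pow]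
  have h2 : (ia qq) ^ (e.2 + N).toNat = (ia qq) ^ e.2 * (ia qq) ^ N := by
    rw [← zpow_natCast, ← zpow_natCast, ← zpow_add₀ ia_qq_ne]
    congr 1
    exact Int.toNat_of_nonneg (hN1 e he)
  rw [h2, smul_mul_assoc, smul_mul_assoc]
  unfold rho
  congr 1
  ring

theorem clear_den' (h B : Lam) (hB : kap h = ia B) : ∃ N : ℕ,
    B * qr ^ N = ∑ e ∈ h.coeff.support, (h.coeff e • Xm (rho' e)) * qr ^ (e.2 + N).toNat := by
  obtain ⟨N, h1, h2⟩ := clear_den h B hB
  refine ⟨N, ?_⟩
  have h3 : B * qr ^ N = (B * qq ^ N) * Xm (0, -3 * N) := by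
    rw [qq_eq, mul_pow, Xm_pow]
    have : Xm (N • (0, 3)) * Xm (0, -3 * (N : ℤ)) = 1 := by
      rw [Xm_mul, ← Xm_zero, nsmul_03]
      congr 1
      ext <;> simp
    linear_combination (-(B * qr ^ N)) * this
  rw [h3, h1, Finset.sum_mul]
  refine Finset.sum_congr rfl fun e he => ?_
  rw [qq_eq, mul_pow, Xm_pow]
  have h4 : Xm (rho' e) = Xm (rho e) * Xm ((e.2 + N).toNat • (0, 3)) * Xm (0, -3 * N) := by
    rw [Xm_mul, Xm_mul, nsmul_03]
    congr 1
    have h5 := Int.toNat_of_nonneg (h2 e he)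
    unfold rho rho'
    ext
    · simp
    · simp only [Prod.snd_add]
      rw [h5]
      ring
  rw [h4, smul_mul_assoc, smul_mul_assoc, smul_mul_assoc]
  congr 1
  ring

theorem qq_mem (l : (ℤ × ℤ) →+ ℤ) (hl : 0 < l (0, 1)) : qq - 1 ∈ L l 1 := by
  have : qq - 1 = Xm (0, 3) := by unfold qq; ring
  rw [this]
  apply Xm_mem
  have h1 : l (0, 3) = 3 * l (0, 1) := by
    have : ((0 : ℤ), (3 : ℤ)) = (3 : ℤ) • (0, 1) := by ext <;> simp
    rw [this, map_zsmul, smul_eq_mul]
  show 1 ≤ l (0, 3)
  omega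

theorem qr_mem (l : (ℤ × ℤ) →+ ℤ) (hl : l (0, 1) < 0) : qr - 1 ∈ L l 1 := by
  have : qr - 1 = Xm (0, -3) := by unfold qr; ring
  rw [this]
  apply Xm_mem
  have h1 : l (0, -3) = (-3) * l (0, 1) := by
    have : ((0 : ℤ), (-3 : ℤ)) = (-3 : ℤ) • (0, 1) := by ext <;> simp
    rw [this, map_zsmul, smul_eq_mul]
  show 1 ≤ l (0, -3)
  omega

theorem cmp1 (l : (ℤ × ℤ) →+ ℤ) (hl : 0 < l (0, 1)) (h B : Lam) (hB : kap h = ia B) :
    (∀ m, B ∈ L l m ↔ ∀ e, h.coeff e ≠ 0 → m ≤ l (rho e)) ∧
    (∀ m, B ∈ L l m → ∀ e, l (rho e) = m → B.coeff (rho e) = h.coeff e) := by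
  classical
  obtain ⟨N, h1, _⟩ := clear_den h B hB
  obtain ⟨h3, h4⟩ := compare l h.coeff.support h.coeff rho rho_inj.injOn
    (fun e => (e.2 + N).toNat) qq B (qq_mem l hl) N h1
  refine ⟨fun m => (h3 m).trans ?_, fun m hm e he => ?_⟩
  · constructor
    · intro h5 e he
      exact h5 e (Finsupp.mem_support_iff.2 he) he
    · intro h5 e _ he
      exact h5 e he
  · have h5 := h4 m hm (rho e)
    by_contra hne
    have h6 : (∑ i ∈ h.coeff.support, h.coeff i • Xm (rho i) : Lam).coeff (rho e) = h.coeff e := by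
      rw [AddMonoidAlgebra.coeff_sum, Finsupp.finsetSum_apply]
      by_cases he0 : h.coeff e = 0
      · rw [he0]
        refine Finset.sum_eq_zero fun i hi => ?_
        rw [AddMonoidAlgebra.coeff_smul, Finsupp.smul_apply, coeff_Xm, if_neg, smul_zero]
        intro hc
        rw [rho_inj hc] at hi
        exact Finsupp.mem_support_iff.1 hi he0
      · rw [Finset.sum_eq_single e]
        · rw [AddMonoidAlgebra.coeff_smul, Finsupp.smul_apply, coeff_Xm, if_pos rfl, smul_eq_mul,
            mul_one]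
        · intro i _ hie
          rw [AddMonoidAlgebra.coeff_smul, Finsupp.smul_apply, coeff_Xm, if_neg, smul_zero]
          exact fun hc => hie (rho_inj hc)
        · exact fun hc => absurd (Finsupp.mem_support_iff.2 he0) hc
    have h7 : m + 1 ≤ l (rho e) := by
      apply h5
      rw [AddMonoidAlgebra.coeff_sub, Finsupp.sub_apply, h6]
      exact sub_ne_zero.2 hne
    omega

theorem cmp2 (l : (ℤ × ℤ) →+ ℤ) (hl : l (0, 1) < 0) (h B : Lam) (hB : kap h = ia B) :
    (∀ m, B ∈ L l m ↔ ∀ e, h.coeff e ≠ 0 → m ≤ l (rho' e)) := by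
  classical
  obtain ⟨N, h1⟩ := clear_den' h B hB
  obtain ⟨h3, _⟩ := compare l h.coeff.support h.coeff rho' rho'_inj.injOn
    (fun e => (e.2 + N).toNat) qr B (qr_mem l hl) N h1
  refine fun m => (h3 m).trans ?_
  constructor
  · intro h5 e he
    exact h5 e (Finsupp.mem_support_iff.2 he) he
  · intro h5 e _ he
    exact h5 e he

theorem kap_inj {h : Lam} (h0 : kap h = 0) : h = 0 := by
  have h1 := (cmp1 (AddMonoidHom.snd ℤ ℤ) (by simp) h 0 (by rw [h0, map_zero])).1
  by_contra hne
  obtain ⟨e, he⟩ : ∃ e, h.coeff e ≠ 0 := by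
    by_contra hc
    push Not at hc
    apply hne
    apply AddMonoidAlgebra.ext
    ext e
    exact hc e
  have h2 := (h1 ((AddMonoidHom.snd ℤ ℤ) (rho e) + 1)).1 (Submodule.zero_mem _) e he
  omega

/-- the class of the exponents is transported -/
theorem cls (c : (ℤ × ℤ) →+ ZMod 3) (k : ZMod 3) (h B : Lam) (hB : kap h = ia B)
    (hc : B ∈ Sp {e | c e = k}) : h ∈ Sp {e | c (rho e) = k} := by
  classical
  obtain ⟨N, h1, _⟩ := clear_den h B hB
  have hq : ∀ n : ℕ, qq ^ n ∈ Sp {e | c e = 0} := by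
    intro n
    induction n with
    | zero => rw [pow_zero, ← Xm_zero]; exact Xm_mem (by simp)
    | succ n ih =>
      rw [pow_succ]
      refine Sp_mul (fun e he f hf => ?_) ih (S' := {e | c e = 0}) ?_
      · simp only [Set.mem_ofPred_eq] at *
        rw [map_add, he, hf, add_zero]
      · unfold qq
        refine add_mem ?_ (Xm_mem ?_)
        · rw [← Xm_zero]; exact Xm_mem (by simp)
        · show c (0, 3) = 0
          have : ((0 : ℤ), (3 : ℤ)) = (3 : ℤ) • (0, 1) := by ext <;> simp
          rw [this, map_zsmul, zsmul_eq_mul]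
          have h3 : ((3 : ℤ) : ZMod 3) = 0 := by decide
          rw [h3, zero_mul]
  have hterm : ∀ e, (h.coeff e • Xm (rho e)) * qq ^ (e.2 + N).toNat ∈ Sp {f | c f = c (rho e)} := by
    intro e
    refine Sp_mul (S := {f | c f = c (rho e)}) (S' := {f | c f = 0}) (fun a ha b hb => ?_) 
      (Submodule.smul_mem _ _ (Xm_mem rfl)) (hq _)
    simp only [Set.mem_ofPred_eq] at *
    rw [map_add, ha, hb, add_zero]
  set bad := h.coeff.support.filter fun e => c (rho e) ≠ k with hbad
  set good := h.coeff.support.filter fun e => ¬ c (rho e) ≠ k with hgood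
  have hsplit := Finset.sum_filter_add_sum_filter_not h.coeff.support (fun e => c (rho e) ≠ k)
    (fun e => (h.coeff e • Xm (rho e)) * qq ^ (e.2 + N).toNat)
  rw [← h1, ← hbad, ← hgood] at hsplit
  have hg : ∑ e ∈ good, (h.coeff e • Xm (rho e)) * qq ^ (e.2 + N).toNat ∈ Sp {f | c f = k} := by
    refine Submodule.sum_mem _ fun e he => ?_
    have h2 := (Finset.mem_filter.1 he).2
    rw [not_not] at h2
    have h3 := hterm e
    rwa [h2] at h3
  have hb : ∑ e ∈ bad, (h.coeff e • Xm (rho e)) * qq ^ (e.2 + N).toNat ∈ Sp {f | c f ≠ k} := by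
    refine Submodule.sum_mem _ fun e he => ?_
    have h2 := (Finset.mem_filter.1 he).2
    refine Sp_mono ?_ (hterm e)
    intro f hf
    simp only [Set.mem_ofPred_eq] at *
    rw [hf]; exact h2
  have hBq : B * qq ^ N ∈ Sp {f | c f = k} := by
    refine Sp_mul (fun a ha b hb => ?_) hc (hq N)
    simp only [Set.mem_ofPred_eq] at *
    rw [map_add, ha, hb, add_zero]
  have hb2 : ∑ e ∈ bad, (h.coeff e • Xm (rho e)) * qq ^ (e.2 + N).toNat ∈ Sp {f | c f = k} := by
    rw [← eq_sub_iff_add_eq] at hsplit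
    rw [hsplit]
    exact sub_mem hBq hg
  have hzero : ∑ e ∈ bad, (h.coeff e • Xm (rho e)) * qq ^ (e.2 + N).toNat = (0 : Lam) := by
    apply AddMonoidAlgebra.ext
    ext f
    by_contra hf
    exact hb f hf (hb2 f hf)
  have hcmp := (compare (AddMonoidHom.snd ℤ ℤ) bad h.coeff rho rho_inj.injOn
    (fun e => (e.2 + N).toNat) qq 0 (qq_mem _ (by simp)) 0 (by rw [zero_mul, hzero])).1
  intro e he
  show c (rho e) = k
  by_contra hne
  have hm : e ∈ bad := Finset.mem_filter.2 ⟨Finsupp.mem_support_iff.2 he, hne⟩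
  have := (hcmp ((AddMonoidHom.snd ℤ ℤ) (rho e) + 1)).1 (Submodule.zero_mem _) e hm he
  omega

/-- degrees of the cluster variables -/
def d : ℕ → ℤ
  | 0 => 2
  | 1 => 1
  | n + 2 => 3 * d (n + 1) - d n

theorem d_succ2 (n : ℕ) : d (n + 2) = 3 * d (n + 1) - d n := rfl

theorem d_pos (n : ℕ) : 0 < d n ∧ 0 < d (n + 1) ∧ (1 ≤ n → d n ≤ d (n + 1)) := by
  induction n with
  | zero => decide
  | succ n ih =>
    obtain ⟨h1, h2, h3⟩ := ih
    rw [d_succ2]
    rcases Nat.eq_zero_or_pos n with h | h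
    · subst h; decide
    · have := h3 h
      refine ⟨h2, by omega, fun _ => by omega⟩

theorem d_quad (n : ℕ) : d n ^ 2 + d (n + 1) ^ 2 + 1 = 3 * d n * d (n + 1) := by
  induction n with
  | zero => decide
  | succ n ih =>
    rw [d_succ2]
    linear_combination ih

/-- the degree of a monomial in the chart `n` -/
def dg (n : ℕ) : (ℤ × ℤ) →+ ℤ where
  toFun e := d n * e.1 + d (n + 1) * e.2
  map_zero' := by simp
  map_add' := by
    intro e f
    simp only [Prod.fst_add, Prod.snd_add]
    ring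

theorem dg_apply (n : ℕ) (e : ℤ × ℤ) : dg n e = d n * e.1 + d (n + 1) * e.2 := rfl

/-- homogeneous polynomials -/
abbrev Hom (k : ℕ) : Submodule ℂ P3 := MvPolynomial.homogeneousSubmodule (Fin 3) ℂ k

theorem hom_induct (φ : P3 →ₐ[ℂ] Lam) (S : ℕ → Submodule ℂ Lam) (h0 : (1 : Lam) ∈ S 0)
    (hmul : ∀ k p q, p ∈ S k → q ∈ S 1 → p * q ∈ S (k + 1)) (hX : ∀ i, φ (X i) ∈ S 1)
    (k : ℕ) (g : P3) (hg : g ∈ Hom k) : φ g ∈ S k := by
  have hmon : ∀ (s : Fin 3 →₀ ℕ), φ (MvPolynomial.monomial s 1) ∈ S s.degree := by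
    intro s
    induction s using Finsupp.induction_linear with
    | zero => simpa using h0
    | single i n =>
      induction n with
      | zero => simpa using h0
      | succ n ih =>
        have e1 : MvPolynomial.monomial (Finsupp.single i (n + 1)) (1 : ℂ) =
            MvPolynomial.monomial (Finsupp.single i n) 1 * X i := by
          rw [MvPolynomial.X, MvPolynomial.monomial_mul, ← Finsupp.single_add, mul_one]
        rw [e1, map_mul]
        have := hmul _ _ _ ih (hX i)
        simpa using this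
    | add s t hs ht =>
      have key : ∀ (t : Fin 3 →₀ ℕ) (m : ℕ) (p : Lam), p ∈ S m →
          p * φ (MvPolynomial.monomial t 1) ∈ S (m + t.degree) := by
        intro t
        induction t using Finsupp.induction with
        | zero => intro m p hp; simpa using hp
        | single_add i n t _ _ iht =>
          intro m p hp
          have hn : ∀ (n : ℕ) (m : ℕ) (p : Lam), p ∈ S m →
              p * φ (MvPolynomial.monomial (Finsupp.single i n) 1) ∈ S (m + n) := by
            intro n
            induction n with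
            | zero => intro m p hp; simpa using hp
            | succ n ih =>
              intro m p hp
              have e1 : MvPolynomial.monomial (Finsupp.single i (n + 1)) (1 : ℂ) =
                  MvPolynomial.monomial (Finsupp.single i n) 1 * X i := by
                rw [MvPolynomial.X, MvPolynomial.monomial_mul, ← Finsupp.single_add, mul_one]
              rw [e1, map_mul, ← mul_assoc, ← add_assoc]
              exact hmul _ _ _ (ih m p hp) (hX i)
          have e2 : MvPolynomial.monomial (Finsupp.single i n + t) (1 : ℂ) =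
              MvPolynomial.monomial (Finsupp.single i n) 1 * MvPolynomial.monomial t 1 := by
            rw [MvPolynomial.monomial_mul, mul_one]
          rw [e2, map_mul, ← mul_assoc, map_add, ← add_assoc, Finsupp.degree_single]
          exact iht _ _ (hn n m p hp)
      have e3 : MvPolynomial.monomial (s + t) (1 : ℂ) =
          MvPolynomial.monomial s 1 * MvPolynomial.monomial t 1 := by
        rw [MvPolynomial.monomial_mul, mul_one]
      rw [e3, map_mul, map_add]
      exact key t _ _ hs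
  rw [MvPolynomial.mem_homogeneousSubmodule] at hg
  rw [MvPolynomial.as_sum g, map_sum]
  refine Submodule.sum_mem _ fun s hs => ?_
  have hdeg : s.degree = k := by
    by_contra h
    exact (MvPolynomial.mem_support_iff.mp hs) (hg.coeff_eq_zero h)
  have e4 : MvPolynomial.monomial s (MvPolynomial.coeff s g) =
      MvPolynomial.coeff s g • MvPolynomial.monomial s (1 : ℂ) := by
    rw [MvPolynomial.smul_monomial, smul_eq_mul, mul_one]
  rw [e4, map_smul]
  refine Submodule.smul_mem _ _ ?_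
  rw [← hdeg]
  exact hmon s

end Pool.Agent.H993R3
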