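import Pool.Agent.H993R3.Defs

/-! A bound for the embedding dimension of a point. -/

noncomputable section

namespace Pool.Agent.H993R3

open Pool.Agent.Helper774.KSing

variable {K : Type} [Field K] [Algebra ℂ K] {k : ℕ}

/-- the square zero extension of `ℂ` by `ℂ^k` -/
abbrev Tz (k : ℕ) : Type := TrivSqZeroExt ℂ (Fin k → ℂ)

/-- `v` is the value at `z = a / s` of the extension of `θ` to the local ring -/
def Rel (R : Subalgebra ℂ K) (θ : R →ₐ[ℂ] Tz k) (z : K) (v : Tz k) : Prop :=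
  ∃ a s : R, (θ s).fst ≠ 0 ∧ z * (s : K) = a ∧ v * θ s = θ a

theorem unit_of_fst {x : Tz k} (h : x.fst ≠ 0) : IsUnit x :=
  TrivSqZeroExt.isUnit_iff_isUnit_fst.2 (isUnit_iff_ne_zero.2 h)

variable {R : Subalgebra ℂ K} {θ : R →ₐ[ℂ] Tz k}

theorem rel_add {z z' : K} {v v' : Tz k} (h : Rel R θ z v) (h' : Rel R θ z' v') :
    Rel R θ (z + z') (v + v') := by
  obtain ⟨a, s, h1, h2, h3⟩ := h
  obtain ⟨a', s', h1', h2', h3'⟩ := h'
  refine ⟨a * s' + a' * s, s * s', ?_, ?_, ?_⟩
  · rw [map_mul, TrivSqZeroExt.fst_mul]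
    exact mul_ne_zero h1 h1'
  · push_cast
    rw [← h2, ← h2']; ring
  · rw [map_add, map_mul, map_mul, map_mul, ← h3, ← h3']; ring

theorem rel_mul {z z' : K} {v v' : Tz k} (h : Rel R θ z v) (h' : Rel R θ z' v') :
    Rel R θ (z * z') (v * v') := by
  obtain ⟨a, s, h1, h2, h3⟩ := h
  obtain ⟨a', s', h1', h2', h3'⟩ := h'
  refine ⟨a * a', s * s', ?_, ?_, ?_⟩
  · rw [map_mul, TrivSqZeroExt.fst_mul]
    exact mul_ne_zero h1 h1'
  · push_cast
    rw [← h2, ← h2']; ring
  · rw [map_mul, map_mul, ← h3, ← h3']; ring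

theorem rel_self (x : R) : Rel R θ (x : K) (θ x) := by
  refine ⟨x, 1, ?_, ?_, ?_⟩
  · rw [map_one, TrivSqZeroExt.fst_one]; exact one_ne_zero
  · push_cast; rw [mul_one]
  · rw [map_one, mul_one]

theorem rel_unique {z : K} {v v' : Tz k} (h : Rel R θ z v) (h' : Rel R θ z v') : v = v' := by
  obtain ⟨a, s, h1, h2, h3⟩ := h
  obtain ⟨a', s', h1', h2', h3'⟩ := h'
  have e : a * s' = a' * s := by
    apply Subtype.ext
    push_cast
    rw [← h2, ← h2']; ring
  have hu : IsUnit (θ s * θ s') := (unit_of_fst h1).mul (unit_of_fst h1')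
  apply hu.mul_right_cancel
  calc v * (θ s * θ s') = (v * θ s) * θ s' := by ring
    _ = θ (a * s') := by rw [h3, map_mul]
    _ = (v' * θ s') * θ s := by rw [e, map_mul, h3']
    _ = v' * (θ s * θ s') := by ring

/-- the ideal of the point -/
def pt (R : Subalgebra ℂ K) (θ : R →ₐ[ℂ] Tz k) : Ideal R :=
  RingHom.ker ((TrivSqZeroExt.fstHom ℂ ℂ (Fin k → ℂ)).comp θ)

theorem mem_pt {x : R} : x ∈ pt R θ ↔ (θ x).fst = 0 := by
  unfold pt
  rw [RingHom.mem_ker]
  rfl

theorem pt_prime (R : Subalgebra ℂ K) (θ : R →ₐ[ℂ] Tz k) : (pt R θ).IsPrime := by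
  unfold pt
  exact RingHom.ker_isPrime _

theorem exists_rel {z : K} (hz : z ∈ locRing R (pt R θ)) : ∃ v, Rel R θ z v := by
  obtain ⟨a, s, hs, h⟩ := hz
  rw [mem_pt] at hs
  obtain ⟨u, hu⟩ := unit_of_fst hs
  refine ⟨θ a * ↑u⁻¹, a, s, hs, h, ?_⟩
  rw [← hu, mul_assoc, Units.inv_mul, mul_one]

/-- If the local ring of the point is a local ring of an algebra with `N + 1` generators, then
the square zero parts lie in a space of dimension at most `N + 1`. -/
theorem emb_le {N : ℕ} (η : Fin (N + 1) → K)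
    (p : Ideal (Algebra.adjoin ℂ (Set.range η))) (hp : p.IsPrime)
    (h : locRing R (pt R θ) = locRing (Algebra.adjoin ℂ (Set.range η)) p)
    (hθ : ∀ v : Fin k → ℂ, ∃ x : R, (θ x).snd = v) : k ≤ N + 1 := by
  classical
  have hsub : ∀ z ∈ Algebra.adjoin ℂ (Set.range η), z ∈ locRing R (pt R θ) := by
    intro z hz
    rw [h]
    refine ⟨⟨z, hz⟩, 1, ?_, ?_⟩
    · exact fun h1 => hp.ne_top ((Ideal.eq_top_iff_one p).2 h1)
    · push_cast; rw [mul_one]
  have h1 : ∀ j, ∃ v, Rel R θ (η j) v := fun j =>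
    exists_rel (hsub _ (Algebra.subset_adjoin ⟨j, rfl⟩))
  choose v hv using h1
  set W : Submodule ℂ (Fin k → ℂ) := Submodule.span ℂ (Set.range fun j => (v j).snd) with hW
  have hmulW : ∀ x y : Tz k, x.snd ∈ W → y.snd ∈ W → (x * y).snd ∈ W := by
    intro x y hx hy
    rw [TrivSqZeroExt.snd_mul, op_smul_eq_smul]
    exact add_mem (W.smul_mem _ hy) (W.smul_mem _ hx)
  let G : Subalgebra ℂ K :=
    { carrier := {z | ∃ w : Tz k, w.snd ∈ W ∧ Rel R θ z w}
      mul_mem' := by
        rintro a b ⟨x, hx, hx'⟩ ⟨y, hy, hy'⟩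
        exact ⟨x * y, hmulW x y hx hy, rel_mul hx' hy'⟩
      add_mem' := by
        rintro a b ⟨x, hx, hx'⟩ ⟨y, hy, hy'⟩
        exact ⟨x + y, by rw [TrivSqZeroExt.snd_add]; exact add_mem hx hy, rel_add hx' hy'⟩
      algebraMap_mem' := by
        intro c
        refine ⟨θ (algebraMap ℂ R c), ?_, rel_self (algebraMap ℂ R c)⟩
        rw [AlgHom.commutes]
        have : (algebraMap ℂ (Tz k) c).snd = 0 := rfl
        rw [this]
        exact W.zero_mem }
  have hG : Algebra.adjoin ℂ (Set.range η) ≤ G := by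
    refine Algebra.adjoin_le ?_
    rintro _ ⟨j, rfl⟩
    exact ⟨v j, Submodule.subset_span ⟨j, rfl⟩, hv j⟩
  have hall : ∀ x : R, (θ x).snd ∈ W := by
    intro x
    have hx : (x : K) ∈ locRing R (pt R θ) := by
      refine ⟨x, 1, ?_, ?_⟩
      · exact fun h1 => (pt_prime R θ).ne_top ((Ideal.eq_top_iff_one _).2 h1)
      · push_cast; rw [mul_one]
    rw [h] at hx
    obtain ⟨a, s, hs, hxs⟩ := hx
    obtain ⟨va, hva, ha⟩ := hG a.2
    obtain ⟨vs, hvs, hs'⟩ := hG s.2
    have hs0 : (s : K) ≠ 0 := by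
      intro h0
      apply hs
      have : s = 0 := Subtype.ext h0
      rw [this]
      exact p.zero_mem
    have hinv : (s : K)⁻¹ ∈ locRing R (pt R θ) := by
      rw [h]
      exact ⟨1, s, hs, by push_cast; exact inv_mul_cancel₀ hs0⟩
    obtain ⟨vi, hi⟩ := exists_rel hinv
    have h2 : vs * vi = 1 := by
      have h3 := rel_mul hs' hi
      rw [mul_inv_cancel₀ hs0] at h3
      have h4 := rel_self (θ := θ) (1 : R)
      rw [map_one] at h4
      exact rel_unique h3 h4
    have h5 : vs.fst * vi.fst = 1 := by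
      rw [← TrivSqZeroExt.fst_mul, h2, TrivSqZeroExt.fst_one]
    have h6 : vi.snd ∈ W := by
      have h7 : vs.fst • vi.snd + vi.fst • vs.snd = 0 := by
        have h8 := congrArg TrivSqZeroExt.snd h2
        rw [TrivSqZeroExt.snd_mul, op_smul_eq_smul, TrivSqZeroExt.snd_one] at h8
        exact h8
      have h9 : vs.fst ≠ 0 := by
        intro h0
        rw [h0, zero_mul] at h5
        exact zero_ne_one h5
      have h8 : vs.fst • vi.snd = -(vi.fst • vs.snd) := eq_neg_of_add_eq_zero_left h7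
      have h10 : vi.snd = (-(vs.fst⁻¹ * vi.fst)) • vs.snd := by
        have e2 : vi.snd = vs.fst⁻¹ • (vs.fst • vi.snd) := by
          rw [smul_smul, inv_mul_cancel₀ h9, one_smul]
        rw [e2, h8, smul_neg, smul_smul, neg_smul]
      rw [h10]
      exact W.smul_mem _ hvs
    have h11 : Rel R θ (x : K) (va * vi) := by
      have h12 : (x : K) = a * (s : K)⁻¹ := by
        rw [← hxs]; field_simp
      rw [h12]
      exact rel_mul ha hi
    rw [rel_unique (rel_self x) h11]
    exact hmulW _ _ hva h6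
  have htop : W = ⊤ := by
    rw [eq_top_iff]
    intro w _
    obtain ⟨x, hx⟩ := hθ w
    rw [← hx]
    exact hall x
  have h13 : Module.finrank ℂ W ≤ N + 1 := by
    have := finrank_range_le_card (R := ℂ) (fun j => (v j).snd)
    rw [Fintype.card_fin] at this
    exact this
  rw [htop, finrank_top, Module.finrank_fin_fun] at h13
  exact h13

end Pool.Agent.H993R3
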