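import Pool.Agent.H993R3.Cnt

/-! The monoid of the lattice points is finitely generated. -/

noncomputable section

namespace Pool.Agent.H993R3

def f0 (b c : ℤ) (x : ℕ × (ℤ × ℤ)) : ℤ := 3 * x.1 - (b * x.2.1 + c * x.2.2)
def f1 (b c : ℤ) (x : ℕ × (ℤ × ℤ)) : ℤ := 3 * x.1 - ((b - 3 * c) * x.2.1 + c * x.2.2)
def f2 (b c : ℤ) (x : ℕ × (ℤ × ℤ)) : ℤ := 3 * x.1 - (b * x.2.1 + (c - 3 * b) * x.2.2)

def Sm (b c : ℤ) : Set (ℕ × (ℤ × ℤ)) := {x | x.2 ∈ Cn b c (3 * x.1 : ℕ)}

theorem mem_Sm (b c : ℤ) (x : ℕ × (ℤ × ℤ)) :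
    x ∈ Sm b c ↔ 0 ≤ f0 b c x ∧ 0 ≤ f1 b c x ∧ 0 ≤ f2 b c x ∧ (3 : ℤ) ∣ f0 b c x := by
  unfold Sm Cn f0 f1 f2
  simp only [Set.mem_ofPred_eq]
  push_cast
  constructor
  · rintro ⟨h1, h2, h3, h4⟩
    exact ⟨by linarith, by linarith, by linarith, h4⟩
  · rintro ⟨h1, h2, h3, h4⟩
    exact ⟨by linarith, by linarith, by linarith, h4⟩

theorem f_sum (b c : ℤ) (hq : b ^ 2 + c ^ 2 + 1 = 3 * b * c) (x : ℕ × (ℤ × ℤ)) :
    f0 b c x + b ^ 2 * f1 b c x + c ^ 2 * f2 b c x = 9 * (b * c) * x.1 := by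
  unfold f0 f1 f2
  linear_combination (3 * (x.1 : ℤ) - b * x.2.1 - c * x.2.2) * hq

/-- the three special elements -/
def sp (b c : ℤ) : Fin 3 → ℕ × (ℤ × ℤ)
  | 0 => (1, (-3 * b, -3 * c))
  | 1 => ((b ^ 2).toNat, (3 * b, 0))
  | 2 => ((c ^ 2).toNat, (0, 3 * c))

theorem sp_f (b c : ℤ) (hq : b ^ 2 + c ^ 2 + 1 = 3 * b * c) (i : Fin 3) :
    f0 b c (sp b c i) = (if i = 0 then 9 * (b * c) else 0) ∧
    f1 b c (sp b c i) = (if i = 1 then 9 * (b * c) else 0) ∧
    f2 b c (sp b c i) = (if i = 2 then 9 * (b * c) else 0) := by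
  have hb2 : ((b ^ 2).toNat : ℤ) = b ^ 2 := Int.toNat_of_nonneg (sq_nonneg b)
  have hc2 : ((c ^ 2).toNat : ℤ) = c ^ 2 := Int.toNat_of_nonneg (sq_nonneg c)
  have h0 : sp b c 0 = (1, (-3 * b, -3 * c)) := rfl
  have h1 : sp b c 1 = ((b ^ 2).toNat, (3 * b, 0)) := rfl
  have h2 : sp b c 2 = ((c ^ 2).toNat, (0, 3 * c)) := rfl
  fin_cases i
  · show f0 b c (sp b c 0) = _ ∧ f1 b c (sp b c 0) = _ ∧ f2 b c (sp b c 0) = _
    rw [h0]
    simp [f0, f1, f2]
    refine ⟨by linear_combination 3 * hq, by linear_combination 3 * hq, by linear_combination 3 * hq⟩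
  · show f0 b c (sp b c 1) = _ ∧ f1 b c (sp b c 1) = _ ∧ f2 b c (sp b c 1) = _
    rw [h1]
    unfold f0 f1 f2
    simp only [hb2]
    refine ⟨?_, ?_, ?_⟩
    · rw [if_neg (by decide)]; ring
    · rw [if_pos (by decide)]; ring
    · rw [if_neg (by decide)]; ring
  · show f0 b c (sp b c 2) = _ ∧ f1 b c (sp b c 2) = _ ∧ f2 b c (sp b c 2) = _
    rw [h2]
    unfold f0 f1 f2
    simp only [hc2]
    refine ⟨?_, ?_, ?_⟩
    · rw [if_neg (by decide)]; ring
    · rw [if_neg (by decide)]; ring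
    · rw [if_pos (by decide)]; ring

theorem sp_mem (b c : ℤ) (hb : 0 < b) (hc : 0 < c) (hq : b ^ 2 + c ^ 2 + 1 = 3 * b * c) (i : Fin 3) :
    sp b c i ∈ Sm b c := by
  have hbc : 0 < b * c := by positivity
  rw [mem_Sm]
  obtain ⟨h1, h2, h3⟩ := sp_f b c hq i
  rw [h1, h2, h3]
  refine ⟨?_, ?_, ?_, ?_⟩
  · split_ifs <;> positivity
  · split_ifs <;> positivity
  · split_ifs <;> positivity
  · split_ifs
    · exact ⟨3 * (b * c), by ring⟩
    · exact dvd_zero _

/-- the finite set of generators -/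
def E0 (b c : ℤ) : Set (ℕ × (ℤ × ℤ)) :=
  {x | x ∈ Sm b c ∧ f0 b c x < 9 * (b * c) ∧ f1 b c x < 9 * (b * c) ∧ f2 b c x < 9 * (b * c)} ∪
    Set.range (sp b c)

theorem E0_sub (b c : ℤ) (hb : 0 < b) (hc : 0 < c) (hq : b ^ 2 + c ^ 2 + 1 = 3 * b * c) :
    E0 b c ⊆ Sm b c := by
  rintro x (⟨hx, _⟩ | ⟨i, rfl⟩)
  · exact hx
  · exact sp_mem b c hb hc hq i

theorem E0_finite (b c : ℤ) (hb : 0 < b) (hc : 0 < c) : (E0 b c).Finite := by
  refine Set.Finite.union ?_ (Set.finite_range _)
  have hbox : ((Set.Icc (0 : ℤ) (9 * (b * c))) ×ˢ ((Set.Icc (0 : ℤ) (9 * (b * c))) ×ˢ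
      (Set.Icc (0 : ℤ) (9 * (b * c))))).Finite :=
    (Set.finite_Icc _ _).prod ((Set.finite_Icc _ _).prod (Set.finite_Icc _ _))
  refine Set.Finite.subset (Set.Finite.preimage (f := fun x => (f0 b c x, (f1 b c x, f2 b c x))) ?_
    hbox) ?_
  · rintro ⟨m, e⟩ _ ⟨m', e'⟩ _ h
    simp only [Prod.mk.injEq] at h
    obtain ⟨h0, h1, h2⟩ := h
    have h3 : (3 * c) * (e.1 - e'.1) = 0 := by
      unfold f0 f1 at *
      simp only at *
      linear_combination h1 - h0
    have h4 : (3 * b) * (e.2 - e'.2) = 0 := by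
      unfold f0 f2 at *
      simp only at *
      linear_combination h2 - h0
    have h5 : e.1 - e'.1 = 0 := (mul_eq_zero.1 h3).resolve_left (by positivity)
    have h6 : e.2 - e'.2 = 0 := (mul_eq_zero.1 h4).resolve_left (by positivity)
    have h7 : e.1 = e'.1 := by omega
    have h8 : e.2 = e'.2 := by omega
    have h9 : (m : ℤ) = m' := by
      unfold f0 at h0
      simp only at h0
      rw [h7, h8] at h0
      omega
    have h10 : m = m' := by exact_mod_cast h9
    have h11 : e = e' := Prod.ext h7 h8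
    rw [h10, h11]
  · rintro x ⟨hx, h1, h2, h3⟩
    rw [mem_Sm] at hx
    exact ⟨⟨hx.1, h1.le⟩, ⟨hx.2.1, h2.le⟩, ⟨hx.2.2.1, h3.le⟩⟩

theorem f_add (b c : ℤ) (x y : ℕ × (ℤ × ℤ)) : f0 b c (x + y) = f0 b c x + f0 b c y ∧
    f1 b c (x + y) = f1 b c x + f1 b c y ∧ f2 b c (x + y) = f2 b c x + f2 b c y := by
  unfold f0 f1 f2
  simp only [Prod.fst_add, Prod.snd_add]
  push_cast
  refine ⟨by ring, by ring, by ring⟩

/-- Induction over the monoid. -/
theorem Sm_induct (b c : ℤ) (hb : 0 < b) (hc : 0 < c) (hq : b ^ 2 + c ^ 2 + 1 = 3 * b * c)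
    (P : ℕ × (ℤ × ℤ) → Prop) (h0 : ∀ x ∈ E0 b c, P x)
    (hadd : ∀ x ∈ Sm b c, ∀ y ∈ Sm b c, P x → P y → P (x + y)) : ∀ x ∈ Sm b c, P x := by
  have hbc : 0 < b * c := by positivity
  have key : ∀ (N : ℕ) (x : ℕ × (ℤ × ℤ)), x ∈ Sm b c →
      (f0 b c x + f1 b c x + f2 b c x).toNat ≤ N → P x := by
    intro N
    induction N with
    | zero =>
      intro x hx hN
      apply h0
      have hx' := (mem_Sm b c x).1 hx
      exact Or.inl ⟨hx, by omega, by omega, by omega⟩
    | succ N ih =>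
      intro x hx hN
      by_cases hE : x ∈ E0 b c
      · exact h0 x hE
      · have hx' := (mem_Sm b c x).1 hx
        have h1 : 9 * (b * c) ≤ f0 b c x ∨ 9 * (b * c) ≤ f1 b c x ∨ 9 * (b * c) ≤ f2 b c x := by
          by_contra hcon
          push Not at hcon
          exact hE (Or.inl ⟨hx, hcon⟩)
        have hs := f_sum b c hq x
        -- it suffices to subtract a special element
        suffices h : ∃ (i : Fin 3) (y : ℕ × (ℤ × ℤ)), x = sp b c i + y ∧ y ∈ Sm b c by
          obtain ⟨i, y, hxy, hy⟩ := h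
          have h2 := f_add b c (sp b c i) y
          have h3 := sp_f b c hq i
          rw [hxy]
          refine hadd _ (sp_mem b c hb hc hq i) _ hy (h0 _ (Or.inr ⟨i, rfl⟩)) (ih y hy ?_)
          rw [hxy, h2.1, h2.2.1, h2.2.2, h3.1, h3.2.1, h3.2.2] at hN
          have hy' := (mem_Sm b c y).1 hy
          fin_cases i <;> simp at hN <;> omega
        have build : ∀ i : Fin 3, (sp b c i).1 ≤ x.1 →
            (if i = 0 then 9 * (b * c) else 0) ≤ f0 b c x →
            (if i = 1 then 9 * (b * c) else 0) ≤ f1 b c x →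
            (if i = 2 then 9 * (b * c) else 0) ≤ f2 b c x →
            ∃ (i : Fin 3) (y : ℕ × (ℤ × ℤ)), x = sp b c i + y ∧ y ∈ Sm b c := by
          intro i hi g0 g1 g2
          refine ⟨i, (x.1 - (sp b c i).1, x.2 - (sp b c i).2), ?_, ?_⟩
          · ext
            · simp only [Prod.fst_add]; omega
            · simp only [Prod.snd_add, Prod.fst_add]; simp
            · simp only [Prod.snd_add]; simp
          · have hxy : x = sp b c i + (x.1 - (sp b c i).1, x.2 - (sp b c i).2) := by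
              ext
              · simp only [Prod.fst_add]; omega
              · simp only [Prod.snd_add, Prod.fst_add]; simp
              · simp only [Prod.snd_add]; simp
            have h2 := f_add b c (sp b c i) (x.1 - (sp b c i).1, x.2 - (sp b c i).2)
            rw [← hxy] at h2
            have h3 := sp_f b c hq i
            rw [h3.1, h3.2.1, h3.2.2] at h2
            rw [mem_Sm]
            refine ⟨by linarith [h2.1], by linarith [h2.2.1], by linarith [h2.2.2], ?_⟩
            have h4 : f0 b c (x.1 - (sp b c i).1, x.2 - (sp b c i).2) =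
                f0 b c x - (if i = 0 then 9 * (b * c) else 0) := by linarith [h2.1]
            rw [h4]
            refine dvd_sub hx'.2.2.2 ?_
            split_ifs
            · exact ⟨3 * (b * c), by ring⟩
            · exact dvd_zero _
        rcases h1 with h1 | h1 | h1
        · refine build 0 ?_ (by simpa using h1) (by simpa using hx'.2.1) (by simpa using hx'.2.2.1)
          show 1 ≤ x.1
          have h5 : 0 < 9 * (b * c) * (x.1 : ℤ) := by
            rw [← hs]
            have := mul_nonneg (sq_nonneg b) hx'.2.1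
            have := mul_nonneg (sq_nonneg c) hx'.2.2.1
            linarith
          have h6 : 0 < (x.1 : ℤ) := by
            by_contra h7
            have : 9 * (b * c) * (x.1 : ℤ) ≤ 0 := mul_nonpos_of_nonneg_of_nonpos (by positivity) (by omega)
            omega
          omega
        · refine build 1 ?_ (by simpa using hx'.1) (by simpa using h1) (by simpa using hx'.2.2.1)
          show (b ^ 2).toNat ≤ x.1
          have h5 : 9 * (b * c) * b ^ 2 ≤ 9 * (b * c) * (x.1 : ℤ) := by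
            rw [← hs]
            have h6 := mul_nonneg (sq_nonneg c) hx'.2.2.1
            have h7 := mul_le_mul_of_nonneg_left h1 (sq_nonneg b)
            have h8 := hx'.1
            linarith
          have h6 : b ^ 2 ≤ (x.1 : ℤ) := le_of_mul_le_mul_left h5 (by positivity)
          omega
        · refine build 2 ?_ (by simpa using hx'.1) (by simpa using hx'.2.1) (by simpa using h1)
          show (c ^ 2).toNat ≤ x.1
          have h5 : 9 * (b * c) * c ^ 2 ≤ 9 * (b * c) * (x.1 : ℤ) := by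
            rw [← hs]
            have h6 := mul_nonneg (sq_nonneg b) hx'.2.1
            have h7 := mul_le_mul_of_nonneg_left h1 (sq_nonneg c)
            have h8 := hx'.1
            linarith
          have h6 : c ^ 2 ≤ (x.1 : ℤ) := le_of_mul_le_mul_left h5 (by positivity)
          omega
  intro x hx
  exact key _ x hx le_rfl

end Pool.Agent.H993R3
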