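import Pool.Agent.H993R3.Fil
import Pool.Agent.H993R3.Mon

/-! Finite generation of the Rees algebra, and the special degenerations. -/

noncomputable section

namespace Pool.Agent.H993R3

open Pool.Agent.Helper774.KSing
open Pool.Agent.Helper774.KStab (TorusField)
open MvPolynomial (X)

variable {K : Type} [Field K] [Algebra ℂ K]

theorem single_mem_rees {F : ℕ → ℤ → Submodule ℂ K} {x : ℕ × ℤ} {s : K} (hs : s ∈ F x.1 (-x.2)) :
    (AddMonoidAlgebra.single x s : AddMonoidAlgebra K (ℕ × ℤ)) ∈ reesSet F := by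
  intro m l
  rw [AddMonoidAlgebra.coeff_single, Finsupp.single_apply]
  split_ifs with h
  · rw [h] at hs; exact hs
  · exact Submodule.zero_mem _

theorem rees_zero (F : ℕ → ℤ → Submodule ℂ K) : (0 : AddMonoidAlgebra K (ℕ × ℤ)) ∈ reesSet F :=
  fun _ _ => Submodule.zero_mem _

theorem rees_add {F : ℕ → ℤ → Submodule ℂ K} {a b : AddMonoidAlgebra K (ℕ × ℤ)}
    (ha : a ∈ reesSet F) (hb : b ∈ reesSet F) : a + b ∈ reesSet F := by
  intro m l
  rw [AddMonoidAlgebra.coeff_add, Finsupp.add_apply]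
  exact add_mem (ha m l) (hb m l)

def reesAdd (F : ℕ → ℤ → Submodule ℂ K) : AddSubmonoid (AddMonoidAlgebra K (ℕ × ℤ)) where
  carrier := reesSet F
  add_mem' := rees_add
  zero_mem' := rees_zero F

omit [Algebra ℂ K] in
theorem sum_single (a : AddMonoidAlgebra K (ℕ × ℤ)) :
    a = ∑ x ∈ a.coeff.support, AddMonoidAlgebra.single x (a.coeff x) :=
  (AddMonoidAlgebra.sum_coeff_single a).symm

theorem rees_mul {F : ℕ → ℤ → Submodule ℂ K}
    (hF : ∀ {m l m' l'} {s s' : K}, s ∈ F m l → s' ∈ F m' l' → s * s' ∈ F (m + m') (l + l'))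
    {a b : AddMonoidAlgebra K (ℕ × ℤ)}
    (ha : a ∈ reesSet F) (hb : b ∈ reesSet F) : a * b ∈ reesSet F := by
  have h : a * b = ∑ x ∈ a.coeff.support, ∑ y ∈ b.coeff.support,
      AddMonoidAlgebra.single (x + y) (a.coeff x * b.coeff y) := by
    conv_lhs => rw [sum_single a, sum_single b, Finset.sum_mul_sum]
    simp only [AddMonoidAlgebra.single_mul_single]
  rw [h]
  show _ ∈ reesAdd F
  refine sum_mem fun x _ => sum_mem fun y _ => ?_
  refine single_mem_rees ?_
  have h1 := hF (ha x.1 x.2) (hb y.1 y.2)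
  have h2 : -x.2 + -y.2 = -(x + y).2 := by
    rw [Prod.snd_add]; ring
  rw [h2] at h1
  exact h1

theorem one_mem_Fil (T : TorusField 2 K) (n : ℕ) : (1 : K) ∈ Fil T n 0 0 := by
  refine ⟨1, ⟨?_, ?_⟩, ?_⟩
  · exact MvPolynomial.isHomogeneous_one _ _
  · show (Phi (2 * n + 1)) 1 ∈ L wt 0
    rw [map_one]
    exact one_mem_L wt
  · rw [Hm_apply, map_one, mul_one]
    have : (![0, ((0 : ℕ) : ℤ)] : Fin 2 → ℤ) = 0 := by
      ext i; fin_cases i <;> rfl
    rw [this, T.χ_zero]

theorem Fil_anti (T : TorusField 2 K) (n m : ℕ) {l l' : ℤ} (h : l ≤ l') :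
    Fil T n m l' ≤ Fil T n m l := by
  rintro _ ⟨g, hg, rfl⟩
  exact ⟨g, ⟨hg.1, L_mono wt h hg.2⟩, rfl⟩

/-- the Rees algebra -/
def reesAlg (T : TorusField 2 K) (n : ℕ) : Subalgebra ℂ (AddMonoidAlgebra K (ℕ × ℤ)) where
  carrier := reesSet (Fil T n)
  mul_mem' := by
    intro a b ha hb
    exact rees_mul (F := Fil T n) (fun h h' => Fil_mul T n h h') ha hb
  add_mem' := by
    intro a b ha hb
    exact rees_add ha hb
  algebraMap_mem' := by
    intro c
    rw [Algebra.algebraMap_eq_smul_one, AddMonoidAlgebra.one_def, AddMonoidAlgebra.smul_single]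
    refine single_mem_rees ?_
    show c • (1 : K) ∈ Fil T n 0 (-0)
    rw [neg_zero]
    exact Submodule.smul_mem _ _ (one_mem_Fil T n)

open Classical in
/-- a polynomial with the given leading form -/
def gam (n : ℕ) (x : ℕ × (ℤ × ℤ)) : P3 :=
  if h : x.2 ∈ Cn (d (2 * n + 1)) (d (2 * n + 2)) (3 * x.1 : ℕ) then
    (exists_basis (2 * n) (3 * x.1) x.2 h).choose else 0

theorem gam_spec (n : ℕ) (x : ℕ × (ℤ × ℤ)) (h : x ∈ Sm (d (2 * n + 1)) (d (2 * n + 2))) :
    gam n x ∈ Hom (3 * x.1) ∧ Phi (2 * n + 1) (gam n x) ∈ L wt (wt x.2) ∧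
      Phi (2 * n + 1) (gam n x) - Xm x.2 ∈ L wt (wt x.2 + 1) := by
  unfold gam
  have h' : x.2 ∈ Cn (d (2 * n + 1)) (d (2 * n + 2)) (3 * x.1 : ℕ) := h
  rw [dif_pos h']
  exact (exists_basis (2 * n) (3 * x.1) x.2 h').choose_spec

def gen (T : TorusField 2 K) (x : ℕ × (ℤ × ℤ)) (g : P3) : AddMonoidAlgebra K (ℕ × ℤ) :=
  AddMonoidAlgebra.single (x.1, -wt x.2) (Hm T x.1 g)

/-- generators of the Rees algebra -/
def GG (T : TorusField 2 K) (n : ℕ) : Set (AddMonoidAlgebra K (ℕ × ℤ)) :=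
  {AddMonoidAlgebra.single (0, 1) 1} ∪
    (fun x => gen T x (gam n x)) '' E0 (d (2 * n + 1)) (d (2 * n + 2))

theorem GG_finite (T : TorusField 2 K) (n : ℕ) : (GG T n).Finite := by
  refine (Set.finite_singleton _).union (Set.Finite.image _ ?_)
  exact E0_finite _ _ (d_pos (2 * n + 1)).1 (d_pos (2 * n + 2)).1

theorem gen_mem_rees (T : TorusField 2 K) (n : ℕ) (x : ℕ × (ℤ × ℤ)) (g : P3)
    (hg : g ∈ Hom (3 * x.1)) (h : Phi (2 * n + 1) g ∈ L wt (wt x.2)) :
    gen T x g ∈ reesSet (Fil T n) := by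
  refine single_mem_rees ?_
  show _ ∈ Fil T n x.1 (-(-wt x.2))
  rw [neg_neg]
  exact ⟨g, ⟨hg, h⟩, rfl⟩

theorem dn_quad (n : ℕ) : d (2 * n + 1) ^ 2 + d (2 * n + 2) ^ 2 + 1 =
    3 * d (2 * n + 1) * d (2 * n + 2) := d_quad (2 * n + 1)

theorem GG_sub (T : TorusField 2 K) (n : ℕ) : GG T n ⊆ reesSet (Fil T n) := by
  rintro a (ha | ⟨x, hx, rfl⟩)
  · rw [Set.mem_singleton_iff] at ha
    rw [ha]
    refine single_mem_rees ?_
    show (1 : K) ∈ Fil T n 0 (-1)
    exact Fil_anti T n 0 (by norm_num) (one_mem_Fil T n)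
  · have h1 := E0_sub _ _ (d_pos (2 * n + 1)).1 (d_pos (2 * n + 2)).1 (dn_quad n) hx
    obtain ⟨h2, h3, _⟩ := gam_spec n x h1
    exact gen_mem_rees T n x _ h2 h3

theorem exists_gen (T : TorusField 2 K) (n : ℕ) (x : ℕ × (ℤ × ℤ))
    (hx : x ∈ Sm (d (2 * n + 1)) (d (2 * n + 2))) :
    ∃ g ∈ Hom (3 * x.1), Phi (2 * n + 1) g ∈ L wt (wt x.2) ∧
      Phi (2 * n + 1) g - Xm x.2 ∈ L wt (wt x.2 + 1) ∧ gen T x g ∈ Algebra.adjoin ℂ (GG T n) := by
  refine Sm_induct _ _ (d_pos (2 * n + 1)).1 (d_pos (2 * n + 2)).1 (dn_quad n)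
    (fun x => ∃ g ∈ Hom (3 * x.1), Phi (2 * n + 1) g ∈ L wt (wt x.2) ∧
      Phi (2 * n + 1) g - Xm x.2 ∈ L wt (wt x.2 + 1) ∧ gen T x g ∈ Algebra.adjoin ℂ (GG T n))
    ?_ ?_ x hx
  · intro x hx
    have h1 := E0_sub _ _ (d_pos (2 * n + 1)).1 (d_pos (2 * n + 2)).1 (dn_quad n) hx
    obtain ⟨h2, h3, h4⟩ := gam_spec n x h1
    exact ⟨gam n x, h2, h3, h4, Algebra.subset_adjoin (Or.inr ⟨x, hx, rfl⟩)⟩
  · rintro x - y - ⟨g, h1, h2, h3, h4⟩ ⟨g', h1', h2', h3', h4'⟩
    refine ⟨g * g', ?_, ?_, ?_, ?_⟩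
    · have : 3 * (x + y).1 = 3 * x.1 + 3 * y.1 := by rw [Prod.fst_add, mul_add]
      rw [this]
      exact MvPolynomial.IsHomogeneous.mul h1 h1'
    · rw [map_mul, Prod.snd_add, map_add]
      exact L_mul wt h2 h2'
    · have e : Phi (2 * n + 1) (g * g') - Xm (x + y).2 =
          (Phi (2 * n + 1) g - Xm x.2) * Phi (2 * n + 1) g' +
            Xm x.2 * (Phi (2 * n + 1) g' - Xm y.2) := by
        rw [map_mul, Prod.snd_add, ← Xm_mul]; ring
      rw [e, Prod.snd_add, map_add]
      refine add_mem ?_ ?_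
      · have := L_mul wt h3 h2'
        have e2 : wt x.2 + 1 + wt y.2 = wt x.2 + wt y.2 + 1 := by ring
        rwa [e2] at this
      · have h5 : Xm x.2 ∈ L wt (wt x.2) := Xm_mem (by show wt x.2 ≤ wt x.2; exact le_rfl)
        have := L_mul wt h5 h3'
        have e2 : wt x.2 + (wt y.2 + 1) = wt x.2 + wt y.2 + 1 := by ring
        rwa [e2] at this
    · have e : gen T (x + y) (g * g') = gen T x g * gen T y g' := by
        unfold gen
        rw [AddMonoidAlgebra.single_mul_single, Prod.fst_add, Hm_mul, Prod.snd_add, map_add,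
          neg_add]
        rfl
      rw [e]
      exact mul_mem h4 h4'

theorem single_smul (x : ℕ × ℤ) (c : ℂ) (s : K) :
    (AddMonoidAlgebra.single x (c • s) : AddMonoidAlgebra K (ℕ × ℤ)) =
      c • AddMonoidAlgebra.single x s := by
  rw [AddMonoidAlgebra.smul_single]

omit [Algebra ℂ K] in
theorem single_sum {ι : Type*} (x : ℕ × ℤ) (S : Finset ι) (f : ι → K) :
    (AddMonoidAlgebra.single x (∑ i ∈ S, f i) : AddMonoidAlgebra K (ℕ × ℤ)) =
      ∑ i ∈ S, AddMonoidAlgebra.single x (f i) := by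
  classical
  induction S using Finset.induction_on with
  | empty => simp
  | insert a S ha ih =>
    rw [Finset.sum_insert ha, Finset.sum_insert ha, AddMonoidAlgebra.single_add, ih]

theorem sub_lead {l : ℤ} (p : Lam) (hp : p ∈ L wt l) :
    p - ∑ e ∈ p.coeff.support.filter (fun e => wt e = l), p.coeff e • Xm e ∈ L wt (l + 1) := by
  have e2 : p - ∑ e ∈ p.coeff.support.filter (fun e => wt e = l), p.coeff e • Xm e =
      ∑ e ∈ p.coeff.support.filter (fun e => ¬ wt e = l), p.coeff e • Xm e := by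
    have e3 : p = ∑ e ∈ p.coeff.support, p.coeff e • Xm e := sum_Xm p
    have e4 := Finset.sum_filter_add_sum_filter_not p.coeff.support (fun e => wt e = l)
      (fun e => p.coeff e • Xm e)
    rw [← e3] at e4
    rw [sub_eq_iff_eq_add, add_comm]
    exact e4.symm
  rw [e2]
  refine Submodule.sum_mem _ fun e he => Submodule.smul_mem _ _ (Xm_mem ?_)
  rw [Finset.mem_filter] at he
  have h5 : l ≤ wt e := hp e (Finsupp.mem_support_iff.1 he.1)
  show l + 1 ≤ wt e
  have := he.2
  omega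

theorem mem_adjoin (T : TorusField 2 K) (n m : ℕ) (l : ℤ) (s : K) (hs : s ∈ Fil T n m l) :
    AddMonoidAlgebra.single (m, -l) s ∈ Algebra.adjoin ℂ (GG T n) := by
  classical
  obtain ⟨L0, hL0⟩ := Fil_sep T n m
  have key : ∀ (k : ℕ) (l : ℤ), L0 ≤ l + k → ∀ s ∈ Fil T n m l,
      AddMonoidAlgebra.single (m, -l) s ∈ Algebra.adjoin ℂ (GG T n) := by
    intro k
    induction k with
    | zero =>
      intro l hl s hs
      have h1 : s ∈ Fil T n m L0 := Fil_anti T n m (by simpa using hl) hs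
      rw [hL0, Submodule.mem_bot] at h1
      rw [h1, AddMonoidAlgebra.single_zero]
      exact zero_mem _
    | succ k ih =>
      rintro l hl _ ⟨g, hg, rfl⟩
      set S := (Phi (2 * n + 1) g).coeff.support.filter fun e => wt e = l with hS
      have hmem : ∀ e ∈ S, (m, e) ∈ Sm (d (2 * n + 1)) (d (2 * n + 2)) := by
        intro e he
        rw [hS, Finset.mem_filter] at he
        exact lead_supp (2 * n) (3 * m) g hg.1 l hg.2 e he.2 (Finsupp.mem_support_iff.1 he.1)
      have hwt : ∀ e ∈ S, wt e = l := fun e he => (Finset.mem_filter.1 he).2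
      choose! γ h1 h2 h3 h4 using fun e he => exists_gen T n (m, e) (hmem e he)
      set g' : P3 := g - ∑ e ∈ S, (Phi (2 * n + 1) g).coeff e • γ e with hg'
      have hg'1 : g' ∈ Hom (3 * m) := by
        rw [hg']
        refine Submodule.sub_mem _ hg.1 (Submodule.sum_mem _ fun e he =>
          Submodule.smul_mem _ _ (h1 e he))
      have hg'2 : Phi (2 * n + 1) g' ∈ L wt (l + 1) := by
        have e1 : Phi (2 * n + 1) g' =
            (Phi (2 * n + 1) g - ∑ e ∈ S, (Phi (2 * n + 1) g).coeff e • Xm e) -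
              ∑ e ∈ S, (Phi (2 * n + 1) g).coeff e • (Phi (2 * n + 1) (γ e) - Xm e) := by
          rw [hg', map_sub, map_sum]
          simp only [map_smul, smul_sub, Finset.sum_sub_distrib]
          ring
        rw [e1]
        refine Submodule.sub_mem _ ?_ (Submodule.sum_mem _ fun e he => Submodule.smul_mem _ _ ?_)
        · exact sub_lead _ hg.2
        · have := h3 e he
          simp only at this
          rw [hwt e he] at this
          exact this
      have e4 : Hm T m g = Hm T m g' + ∑ e ∈ S, (Phi (2 * n + 1) g).coeff e • Hm T m (γ e) := by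
        rw [hg', map_sub, map_sum]
        simp only [map_smul]
        ring
      rw [e4, AddMonoidAlgebra.single_add, single_sum]
      refine add_mem ?_ (sum_mem fun e he => ?_)
      · have h6 := ih (l + 1) (by push_cast at hl ⊢; omega) (Hm T m g') ⟨g', ⟨hg'1, hg'2⟩, rfl⟩
        have h7 : (AddMonoidAlgebra.single (0, 1) 1 : AddMonoidAlgebra K (ℕ × ℤ)) ∈
            Algebra.adjoin ℂ (GG T n) := Algebra.subset_adjoin (Or.inl rfl)
        have h8 := mul_mem h7 h6
        rw [AddMonoidAlgebra.single_mul_single, one_mul] at h8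
        have h9 : ((0, 1) : ℕ × ℤ) + (m, -(l + 1)) = (m, -l) := by
          ext
          · simp
          · simp only [Prod.snd_add]; ring
        rwa [h9] at h8
      · rw [single_smul]
        refine Subalgebra.smul_mem _ ?_ _
        have h5 := h4 e he
        unfold gen at h5
        simp only at h5
        rw [hwt e he] at h5
        exact h5
  exact key (L0 - l).toNat l (by omega) s hs

theorem fg_rees (T : TorusField 2 K) (n : ℕ) :
    (Algebra.adjoin ℂ (GG T n) : Set (AddMonoidAlgebra K (ℕ × ℤ))) = reesSet (Fil T n) := by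
  apply Set.Subset.antisymm
  · exact fun a ha => Algebra.adjoin_le (S := reesAlg T n) (GG_sub T n) ha
  · intro a ha
    rw [sum_single a]
    refine sum_mem fun x _ => ?_
    have h1 := mem_adjoin T n x.1 (-x.2) (a.coeff x) (ha x.1 x.2)
    rw [neg_neg] at h1
    exact h1

theorem exists_sym (T : TorusField 2 K) (n m : ℕ) (l : ℤ) :
    ∃ g : K →ₗ[ℂ] K, ∀ s : Fil T n m l, g s = symF T n m l s := by
  obtain ⟨g, hg⟩ := LinearMap.exists_extend (symF T n m l)
  exact ⟨g, fun s => LinearMap.congr_fun hg s⟩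

/-- the symbol maps, extended to the field -/
def symG (T : TorusField 2 K) (n m : ℕ) (l : ℤ) : K →ₗ[ℂ] K := (exists_sym T n m l).choose

theorem symG_apply (T : TorusField 2 K) (n m : ℕ) (l : ℤ) (s : K) (hs : s ∈ Fil T n m l) :
    symG T n m l s = symF T n m l ⟨s, hs⟩ := (exists_sym T n m l).choose_spec ⟨s, hs⟩

theorem symG_image (T : TorusField 2 K) (n m : ℕ) (l : ℤ) :
    symImage (Fil T n) (symG T n) m l = LinearMap.range (symF T n m l) := by
  unfold symImage
  apply le_antisymm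
  · rintro _ ⟨s, hs, rfl⟩
    exact ⟨⟨s, hs⟩, (symG_apply T n m l s hs).symm⟩
  · rintro _ ⟨s, rfl⟩
    exact ⟨s.1, s.2, symG_apply T n m l s.1 s.2⟩

/-- The special degeneration of the plane to `P(1, b², c²)`. -/
def degen (T : TorusField 2 K) (n : ℕ) :
    SpecialDegeneration (toricVar T dataP) (toricVar T (dataN n)) where
  r := 1
  r_pos := le_rfl
  F := Fil T n
  filtration :=
    { le := by
        intro m l
        rw [one_mul, ← Hm_image]
        exact Submodule.map_mono inf_le_left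
      decreasing := fun m l => Fil_anti T n m (by omega)
      mul := fun m l m' l' s hs s' hs' => Fil_mul T n hs hs'
      exhaustive := by
        intro m
        rw [one_mul]
        exact Fil_exh T n m
      separated := Fil_sep T n }
  fg := ⟨GG T n, GG_finite T n, fg_rees T n⟩
  sym := symG T n
  symbol := by
    refine ⟨?_, ?_⟩
    · intro m l s hs
      rw [symG_apply T n m l s hs]
      exact symF_ker T n m l ⟨s, hs⟩
    · intro m l m' l' s hs s' hs'
      rw [symG_apply T n m l s hs, symG_apply T n m' l' s' hs',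
        symG_apply T n (m + m') (l + l') (s * s') (Fil_mul T n hs hs')]
      exact symF_mul T n m l m' l' ⟨s, hs⟩ ⟨s', hs'⟩
  graded := by
    intro m
    have h : symImage (Fil T n) (symG T n) m = fun l => LinearMap.range (symF T n m l) :=
      funext fun l => symG_image T n m l
    refine ⟨?_, ?_⟩
    · rw [h]
      exact symF_indep T n m
    · rw [h, one_mul]
      exact symF_span T n m

end Pool.Agent.H993R3
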