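import Pool.Agent.H993R3.Sym

/-! The filtration and its associated graded ring. -/

noncomputable section

namespace Pool.Agent.H993R3

open Pool.Agent.Helper774.KSing
open Pool.Agent.Helper774.KStab (TorusField)
open MvPolynomial (X)

variable {K : Type} [Field K] [Algebra ℂ K]

/-- `d (2 n + 2) = d (2 n + 1) + 3 gg n` -/
def gg : ℕ → ℤ
  | 0 => 0
  | n + 1 => d (2 * n + 3) - d (2 * n + 2) - gg n

theorem gg_eq (n : ℕ) : d (2 * n + 2) = d (2 * n + 1) + 3 * gg n := by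
  induction n with
  | zero => decide
  | succ n ih =>
    have h1 : d (2 * (n + 1) + 2) = 3 * d (2 * n + 3) - d (2 * n + 2) := by
      have : 2 * (n + 1) + 2 = (2 * n + 2) + 2 := by ring
      rw [this, d_succ2]
    have h2 : d (2 * (n + 1) + 1) = d (2 * n + 3) := by
      have : 2 * (n + 1) + 1 = 2 * n + 3 := by ring
      rw [this]
    have h3 : d (2 * n + 3) = 3 * d (2 * n + 2) - d (2 * n + 1) := d_succ2 (2 * n + 1)
    rw [h1, h2]
    simp only [gg]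
    linarith

theorem rel (n : ℕ) : d (2 * n + 1) ^ 2 + 3 * d (2 * n + 1) * gg n = 9 * gg n ^ 2 + 1 := by
  have h1 := d_quad (2 * n + 1)
  have h2 := gg_eq n
  have h3 : d (2 * n + 1 + 1) = d (2 * n + 2) := rfl
  rw [h3, h2] at h1
  linear_combination -h1

theorem dn_pos (n : ℕ) : 0 < d (2 * n + 1) := (d_pos (2 * n + 1)).1

theorem dn_pos' (n : ℕ) : 0 < d (2 * n + 1) + 3 * gg n := by
  rw [← gg_eq]; exact (d_pos (2 * n + 2)).1

/-- The data of `P(1, b², c²)` with `b = d (2n+1)`, `c = d (2n+2)`. -/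
def dataN (n : ℕ) : SData 2 := dataT (d (2 * n + 1)) (gg n) (dn_pos n) (dn_pos' n) (rel n)

theorem mem_ptsN (n m : ℕ) (u : Fin 2 → ℤ) :
    u ∈ (dataN n).pts m ↔ cv u ∈ Cn (d (2 * n + 1)) (d (2 * n + 2)) (3 * m : ℕ) := by
  unfold dataN
  rw [mem_pts, gg_eq]
  norm_num

theorem cv_surjN (n m : ℕ) (e : ℤ × ℤ) (he : e ∈ Cn (d (2 * n + 1)) (d (2 * n + 2)) (3 * m : ℕ)) :
    ∃ u, cv u = e := by
  rw [gg_eq] at he
  refine cv_surj _ _ (rel n) m e ?_
  push_cast at he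
  exact he

/-- polynomials of degree `3m` have leading exponents in the lattice -/
theorem Phi_cv (n m : ℕ) (g : P3) (hg : g ∈ Hom (3 * m)) :
    Phi (2 * n + 1) g ∈ Sp (Set.range cv) := by
  refine Sp_mono ?_ (Phi_cls (2 * n + 1) (3 * m) g hg)
  intro e he
  simp only [Set.mem_ofPred_eq] at he
  have h0 : ((3 * m : ℕ) : ZMod 3) = 0 := by
    push_cast
    have h3 : (3 : ZMod 3) = 0 := by decide
    rw [h3, zero_mul]
  rw [h0, dc_apply] at he
  have h1 : (3 : ℤ) ∣ dg (2 * n + 1) e := (ZMod.intCast_zmod_eq_zero_iff_dvd _ 3).1 he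
  rw [dg_apply] at h1
  have h2 : d (2 * n + 1 + 1) = d (2 * n + 2) := rfl
  rw [h2, gg_eq] at h1
  have h3 : (3 : ℤ) ∣ d (2 * n + 1) * (e.1 + e.2) := by
    have h4 : d (2 * n + 1) * (e.1 + e.2) =
        (d (2 * n + 1) * e.1 + (d (2 * n + 1) + 3 * gg n) * e.2) - 3 * (gg n * e.2) := by ring
    rw [h4]
    exact dvd_sub h1 (dvd_mul_right _ _)
  have h5 : IsCoprime (3 : ℤ) (d (2 * n + 1)) :=
    ⟨d (2 * n + 1) * gg n - 3 * gg n ^ 2, d (2 * n + 1), by linear_combination rel n⟩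
  obtain ⟨y, hy⟩ := h5.dvd_of_dvd_mul_left h3
  refine ⟨![e.1, y], ?_⟩
  unfold cv
  ext
  · rfl
  · show -e.1 + 3 * y = e.2
    omega

/-- forms of degree `3m` of valuation at least `l` -/
def Gm (n m : ℕ) (l : ℤ) : Submodule ℂ P3 :=
  Hom (3 * m) ⊓ (L wt l).comap (Phi (2 * n + 1)).toLinearMap

theorem mem_Gm {n m : ℕ} {l : ℤ} {g : P3} : g ∈ Gm n m l ↔ g ∈ Hom (3 * m) ∧ Phi (2 * n + 1) g ∈ L wt l :=
  Iff.rfl

def Fil (T : TorusField 2 K) (n m : ℕ) (l : ℤ) : Submodule ℂ K := (Gm n m l).map (Hm T m)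

theorem Gm_mul {n m m' : ℕ} {l l' : ℤ} {g g' : P3} (hg : g ∈ Gm n m l) (hg' : g' ∈ Gm n m' l') :
    g * g' ∈ Gm n (m + m') (l + l') := by
  rw [mem_Gm] at *
  refine ⟨?_, ?_⟩
  · rw [mul_add]
    exact MvPolynomial.IsHomogeneous.mul hg.1 hg'.1
  · rw [map_mul]
    exact L_mul wt hg.2 hg'.2

theorem Fil_mul (T : TorusField 2 K) (n : ℕ) {m : ℕ} {l : ℤ} {m' : ℕ} {l' : ℤ} {s s' : K}
    (hs : s ∈ Fil T n m l) (hs' : s' ∈ Fil T n m' l') : s * s' ∈ Fil T n (m + m') (l + l') := by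
  obtain ⟨g, hg, rfl⟩ := hs
  obtain ⟨g', hg', rfl⟩ := hs'
  exact ⟨g * g', Gm_mul hg hg', Hm_mul T m m' g g'⟩

theorem Fil_mem_iff (T : TorusField 2 K) (n m : ℕ) (l : ℤ) (g : P3) (hg : g ∈ Hom (3 * m)) :
    Hm T m g ∈ Fil T n m l ↔ Phi (2 * n + 1) g ∈ L wt l := by
  constructor
  · rintro ⟨g', hg', h⟩
    have h1 : g' - g = 0 := by
      apply Hm_inj T m (g' - g) (sub_mem hg'.1 hg)
      rw [map_sub, h, sub_self]
    rw [sub_eq_zero] at h1
    rw [← h1]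
    exact hg'.2
  · intro h
    exact ⟨g, ⟨hg, h⟩, rfl⟩

theorem exists_lower (n : ℕ) : ∃ a : ℤ, ∀ (k : ℕ) (g : P3), g ∈ Hom k →
    Phi (2 * n + 1) g ∈ L wt (k * a) := by
  obtain ⟨a0, h0⟩ := exists_L wt (Phi (2 * n + 1) (X 0))
  obtain ⟨a1, h1⟩ := exists_L wt (Phi (2 * n + 1) (X 1))
  obtain ⟨a2, h2⟩ := exists_L wt (Phi (2 * n + 1) (X 2))
  refine ⟨min a0 (min a1 a2), fun k g hg => ?_⟩
  refine hom_induct (Phi (2 * n + 1)) (fun k => L wt (k * min a0 (min a1 a2))) ?_ ?_ ?_ k g hg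
  · simpa using one_mem_L wt
  · intro k p q hp hq
    have := L_mul wt hp hq
    have e : (k : ℤ) * min a0 (min a1 a2) + ((1 : ℕ) : ℤ) * min a0 (min a1 a2) =
      ((k + 1 : ℕ) : ℤ) * min a0 (min a1 a2) := by push_cast; ring
    rwa [e] at this
  · intro i
    have e : ((1 : ℕ) : ℤ) * min a0 (min a1 a2) = min a0 (min a1 a2) := by push_cast; ring
    rw [e]
    fin_cases i
    · exact L_mono wt (by omega) h0
    · exact L_mono wt (by omega) h1
    · exact L_mono wt (by omega) h2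

theorem Fil_exh (T : TorusField 2 K) (n m : ℕ) :
    ∃ l, Fil T n m l = (toricVar T dataP).antican m := by
  obtain ⟨a, ha⟩ := exists_lower n
  refine ⟨(3 * m : ℕ) * a, ?_⟩
  rw [← Hm_image]
  unfold Fil
  congr 1
  apply le_antisymm inf_le_left
  exact fun g hg => ⟨hg, ha (3 * m) g hg⟩

theorem Fil_sep (T : TorusField 2 K) (n m : ℕ) : ∃ l, Fil T n m l = ⊥ := by
  classical
  have hf : (Cn (d (2 * n + 1)) (d (2 * n + 2)) (3 * m : ℕ)).Finite := by
    have := finCn (3 * m) (2 * n)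
    exact Set.toFinite _
  obtain ⟨M, hM⟩ := (hf.image wt).bddAbove
  refine ⟨M + 1, ?_⟩
  rw [Submodule.eq_bot_iff]
  rintro _ ⟨g, hg, rfl⟩
  have : g = 0 := by
    by_contra hne
    obtain ⟨l, h1, e, he, h2, h3⟩ := exists_lead (2 * n) (3 * m) g hg.1 hne
    have h4 : M + 1 ≤ wt e := hg.2 e h3
    have h5 : wt e ≤ M := hM ⟨e, he, rfl⟩
    omega
  rw [this, map_zero]

/-! ### the symbol maps -/

/-- the inverse of the identification of forms with sections -/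
def He (T : TorusField 2 K) (m : ℕ) : Hom (3 * m) ≃ₗ[ℂ] LinearMap.range ((Hm T m).domRestrict (Hom (3 * m))) :=
  LinearEquiv.ofInjective ((Hm T m).domRestrict (Hom (3 * m))) (by
    rw [← LinearMap.ker_eq_bot, LinearMap.ker_eq_bot']
    intro g hg
    exact Subtype.ext (Hm_inj T m g.1 g.2 hg))

theorem Fil_le_range (T : TorusField 2 K) (n m : ℕ) (l : ℤ) :
    Fil T n m l ≤ LinearMap.range ((Hm T m).domRestrict (Hom (3 * m))) := by
  rintro _ ⟨g, hg, rfl⟩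
  exact ⟨⟨g, hg.1⟩, rfl⟩

def symF (T : TorusField 2 K) (n m : ℕ) (l : ℤ) : Fil T n m l →ₗ[ℂ] K :=
  symL T l ∘ₗ (Phi (2 * n + 1)).toLinearMap ∘ₗ (Hom (3 * m)).subtype ∘ₗ
    (He T m).symm.toLinearMap ∘ₗ Submodule.inclusion (Fil_le_range T n m l)

theorem symF_apply (T : TorusField 2 K) (n m : ℕ) (l : ℤ) (g : P3) (hg : g ∈ Gm n m l)
    (h : Hm T m g ∈ Fil T n m l) : symF T n m l ⟨Hm T m g, h⟩ = symL T l (Phi (2 * n + 1) g) := by
  unfold symF
  simp only [LinearMap.comp_apply]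
  have h1 : (He T m).symm (Submodule.inclusion (Fil_le_range T n m l) ⟨Hm T m g, h⟩) =
      ⟨g, hg.1⟩ := by
    rw [LinearEquiv.symm_apply_eq]
    apply Subtype.ext
    rfl
  show symL T l (Phi (2 * n + 1) ((He T m).symm
    (Submodule.inclusion (Fil_le_range T n m l) ⟨Hm T m g, h⟩)).1) = _
  rw [h1]

theorem symF_apply' (T : TorusField 2 K) (n m : ℕ) (l : ℤ) (s : Fil T n m l) (g : P3)
    (hg : g ∈ Gm n m l) (h : Hm T m g = s.1) : symF T n m l s = symL T l (Phi (2 * n + 1) g) := by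
  have h1 : s = ⟨Hm T m g, h ▸ s.2⟩ := Subtype.ext h.symm
  rw [h1]
  exact symF_apply T n m l g hg _

theorem Gm_intro {n m : ℕ} {l : ℤ} {g : P3} (h1 : g ∈ Hom (3 * m))
    (h2 : Phi (2 * n + 1) g ∈ L wt l) : g ∈ Gm n m l := ⟨h1, h2⟩

theorem Fil_intro (T : TorusField 2 K) {n m : ℕ} {l : ℤ} {g : P3} (hg : g ∈ Gm n m l) :
    Hm T m g ∈ Fil T n m l := ⟨g, hg, rfl⟩

theorem symF_ker (T : TorusField 2 K) (n m : ℕ) (l : ℤ) (s : Fil T n m l) :
    symF T n m l s = 0 ↔ (s : K) ∈ Fil T n m (l + 1) := by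
  obtain ⟨g, hg, hs⟩ := s.2
  rw [symF_apply' T n m l s g hg hs, ← hs]
  have h1 : Hm T m g ∈ Fil T n m (l + 1) ↔ _ := Fil_mem_iff T n m (l + 1) g hg.1
  rw [h1]
  constructor
  · intro h
    exact symL_ker T l hg.2 (Phi_cv n m g hg.1) h
  · intro h
    exact symL_zero T l h

theorem symF_mul (T : TorusField 2 K) (n : ℕ) (m : ℕ) (l : ℤ) (m' : ℕ) (l' : ℤ)
    (s : Fil T n m l) (s' : Fil T n m' l') :
    symF T n (m + m') (l + l') ⟨(s : K) * (s' : K), Fil_mul T n s.2 s'.2⟩ =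
      symF T n m l s * symF T n m' l' s' := by
  obtain ⟨g, hg, hs⟩ := s.2
  obtain ⟨g', hg', hs'⟩ := s'.2
  rw [symF_apply' T n m l s g hg hs, symF_apply' T n m' l' s' g' hg' hs']
  have h1 := Gm_mul hg hg'
  rw [symF_apply' T n (m + m') (l + l') _ (g * g') h1 (by
    show _ = s.1 * s'.1
    rw [Hm_mul, hs, hs']), map_mul]
  exact symL_mul T l l' hg.2 hg'.2 (Phi_cv n m g hg.1) (Phi_cv n m' g' hg'.1)

theorem symF_range (T : TorusField 2 K) (n m : ℕ) (l : ℤ) :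
    LinearMap.range (symF T n m l) =
      Submodule.span ℂ (T.χ '' {u | u ∈ (dataN n).pts m ∧ wt (cv u) = l}) := by
  apply le_antisymm
  · rintro _ ⟨s, rfl⟩
    obtain ⟨g, hg, hs⟩ := s.2
    rw [symF_apply' T n m l s g hg hs, symL_eq]
    refine Submodule.sum_mem _ fun e he => Submodule.smul_mem _ _ ?_
    split_ifs with h1
    · have h2 := lead_supp (2 * n) (3 * m) g hg.1 l hg.2 e h1 (Finsupp.mem_support_iff.1 he)
      obtain ⟨u, rfl⟩ := cv_surjN n m e h2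
      rw [chib_cv]
      exact Submodule.subset_span ⟨u, ⟨(mem_ptsN n m u).2 h2, h1⟩, rfl⟩
    · exact Submodule.zero_mem _
  · rw [Submodule.span_le]
    rintro _ ⟨u, ⟨hu, rfl⟩, rfl⟩
    obtain ⟨g, hg, h1, h2⟩ := exists_basis (2 * n) (3 * m) (cv u) ((mem_ptsN n m u).1 hu)
    have hG : g ∈ Gm n m (wt (cv u)) := Gm_intro hg h1
    refine ⟨⟨Hm T m g, Fil_intro T hG⟩, ?_⟩
    rw [symF_apply' T n m _ _ g hG rfl]
    have h3 : Phi (2 * n + 1) g = (Phi (2 * n + 1) g - Xm (cv u)) + Xm (cv u) := by ring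
    rw [h3, map_add, symL_zero T _ h2, zero_add, symL_Xm, if_pos rfl, chib_cv]

theorem symF_indep (T : TorusField 2 K) (n m : ℕ) :
    iSupIndep fun l => LinearMap.range (symF T n m l) := by
  rw [iSupIndep_def]
  intro l
  have h1 : ⨆ (j) (_ : j ≠ l), LinearMap.range (symF T n m j) ≤
      Submodule.span ℂ (T.χ '' {u | wt (cv u) ≠ l}) := by
    refine iSup_le fun j => iSup_le fun hj => ?_
    rw [symF_range]
    refine Submodule.span_mono (Set.image_mono ?_)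
    rintro u ⟨_, hu⟩
    show wt (cv u) ≠ l
    rw [hu]; exact hj
  have h2 : LinearMap.range (symF T n m l) ≤ Submodule.span ℂ (T.χ '' {u | wt (cv u) = l}) := by
    rw [symF_range]
    exact Submodule.span_mono (Set.image_mono fun u hu => hu.2)
  refine Disjoint.mono h2 h1 (T.li.disjoint_span_image ?_)
  rw [Set.disjoint_left]
  intro u hu hu'
  exact hu' hu

theorem symF_span (T : TorusField 2 K) (n m : ℕ) :
    ⨆ l, LinearMap.range (symF T n m l) = (toricVar T (dataN n)).antican m := by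
  ext f
  rw [toric_antican]
  simp only [symF_range]
  rw [← Submodule.span_iUnion, ← Set.image_iUnion]
  have : (⋃ i, {u | u ∈ (dataN n).pts m ∧ wt (cv u) = i}) = (dataN n).pts m := by
    ext u
    simp
  rw [this]

end Pool.Agent.H993R3
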