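import Pool.Agent.H993R3.Fg
import Pool.Agent.H993R3.Emb

/-! Irreducible elements of the semigroup at the point of index `c²`. -/

noncomputable section

namespace Pool.Agent.H993R3

open Pool.Agent.Helper774.KSing
open Pool.Agent.Helper774.KStab (TorusField)

/-- the linear recursion `x (k+2) = 7 x (k+1) - x k` -/
def rc (x y : ℤ) : ℕ → ℤ
  | 0 => x
  | 1 => y
  | k + 2 => 7 * rc x y (k + 1) - rc x y k

theorem rc_succ2 (x y : ℤ) (k : ℕ) : rc x y (k + 2) = 7 * rc x y (k + 1) - rc x y k := rfl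

def yy (k : ℕ) : ℤ := rc 0 1 k

theorem yy_succ2 (k : ℕ) : yy (k + 2) = 7 * yy (k + 1) - yy k := rfl

theorem yy_step (k : ℕ) : 0 ≤ yy k ∧ yy k + 1 ≤ yy (k + 1) := by
  induction k with
  | zero => exact ⟨le_rfl, by decide⟩
  | succ k ih =>
    rw [yy_succ2]
    omega

theorem yy_mono {k m : ℕ} (h : k ≤ m) : yy k ≤ yy m := by
  induction m, h using Nat.le_induction with
  | base => exact le_rfl
  | succ m _ ih => have := (yy_step m).2; omega

/-- two step induction -/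
theorem two_step {P : ℕ → Prop} (h0 : P 0) (h1 : P 1) (h2 : ∀ k, P k → P (k + 1) → P (k + 2)) :
    ∀ k, P k := by
  have : ∀ k, P k ∧ P (k + 1) := by
    intro k
    induction k with
    | zero => exact ⟨h0, h1⟩
    | succ k ih => exact ⟨ih.2, h2 k ih.1 ih.2⟩
  exact fun k => (this k).1

theorem q_rec (m : ℕ) : d (m + 2) ^ 2 = 7 * d (m + 1) ^ 2 - d m ^ 2 - 2 := by
  have h1 := d_succ2 m
  have h2 := d_quad m
  rw [h1]
  linear_combination 2 * h2

theorem q1 : ∀ m : ℕ, d (m + 2) ^ 2 - d (m + 1) ^ 2 = 3 * yy m := by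
  refine two_step (by decide) (by decide) ?_
  intro k h1 h2
  have h3 := q_rec (k + 1)
  have h4 := q_rec (k + 2)
  rw [yy_succ2]
  have e1 : d (k + 1 + 2) = d (k + 3) := rfl
  have e2 : d (k + 2 + 2) = d (k + 4) := rfl
  have e3 : d (k + 2 + 1) = d (k + 3) := rfl
  have e4 : d (k + 1 + 1) = d (k + 2) := rfl
  rw [e1, e4] at h3
  rw [e2, e3] at h4
  rw [e1, e4] at h2
  rw [e2, e3]
  linear_combination h4 - h3 + 7 * h2 - h1

theorem q2 (m : ℕ) : d (m + 3) ^ 2 - 6 * d (m + 2) ^ 2 = 3 * yy m - 2 := by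
  have h3 := q_rec (m + 1)
  have e1 : d (m + 1 + 2) = d (m + 3) := rfl
  have e4 : d (m + 1 + 1) = d (m + 2) := rfl
  rw [e1, e4] at h3
  linear_combination h3 + q1 m

section

variable (b g : ℤ)

/-- `R j` -/
def RR (j : ℕ) : ℤ := rc ((b + 3 * g) ^ 2) (b ^ 2) j
/-- the irreducible elements -/
def PA (j : ℕ) : ℤ := rc (b - 6 * g) (11 * b - 21 * g) j
def PB (j : ℕ) : ℤ := rc (-5 * g) (5 * b - 10 * g) j
def lA (j : ℕ) : ℤ := rc (b + 4 * g) (b - g) j
def lB (j : ℕ) : ℤ := rc (-(b + 3 * g)) (3 * g - 2 * b) j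

theorem RR_det (j : ℕ) : RR b g j * yy (j + 1) - RR b g (j + 1) * yy j = (b + 3 * g) ^ 2 := by
  induction j with
  | zero => simp [RR, yy, rc]
  | succ j ih =>
    have h1 : RR b g (j + 1 + 1) = 7 * RR b g (j + 1) - RR b g j := rfl
    have h2 : yy (j + 1 + 1) = 7 * yy (j + 1) - yy j := rfl
    rw [h1, h2]
    linear_combination ih

theorem PA_A : ∀ j, g * PA b g j - (b + 3 * g) * PB b g j = RR b g j - RR b g (j + 1) := by
  refine two_step ?_ ?_ ?_
  · simp only [PA, PB, RR, rc]; ring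
  · simp only [PA, PB, RR, rc]; ring
  · intro k h1 h2
    have e1 : PA b g (k + 2) = 7 * PA b g (k + 1) - PA b g k := rfl
    have e2 : PB b g (k + 2) = 7 * PB b g (k + 1) - PB b g k := rfl
    have e3 : RR b g (k + 2) = 7 * RR b g (k + 1) - RR b g k := rfl
    have e4 : RR b g (k + 2 + 1) = 7 * RR b g (k + 1 + 1) - RR b g (k + 1) := rfl
    rw [e4, e3, e1, e2]
    have e5 : RR b g (k + 1 + 1) = 7 * RR b g (k + 1) - RR b g k := rfl
    linear_combination 7 * h2 - h1 - 7 * e5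

theorem PA_B (hrel : b ^ 2 + 3 * b * g = 9 * g ^ 2 + 1) :
    ∀ j, (b + 4 * g) * PA b g j - (b + 3 * g) * PB b g j = yy (j + 1) - yy j := by
  refine two_step ?_ ?_ ?_
  · simp only [PA, PB, yy, rc]; linear_combination hrel
  · simp only [PA, PB, yy, rc]; linear_combination 6 * hrel
  · intro k h1 h2
    have e1 : PA b g (k + 2) = 7 * PA b g (k + 1) - PA b g k := rfl
    have e2 : PB b g (k + 2) = 7 * PB b g (k + 1) - PB b g k := rfl
    have e3 : yy (k + 2) = 7 * yy (k + 1) - yy k := rfl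
    have e4 : yy (k + 2 + 1) = 7 * yy (k + 1 + 1) - yy (k + 1) := rfl
    rw [e4, e3, e1, e2]
    have e5 : yy (k + 1 + 1) = 7 * yy (k + 1) - yy k := rfl
    linear_combination 7 * h2 - h1 + 7 * e5

theorem l_eq (hrel : b ^ 2 + 3 * b * g = 9 * g ^ 2 + 1) (x y : ℤ) :
    ∀ j, (b + 3 * g) ^ 2 * (lA b g j * x + lB b g j * y) =
      (g * x - (b + 3 * g) * y) * yy j + ((b + 4 * g) * x - (b + 3 * g) * y) * RR b g j := by
  refine two_step ?_ ?_ ?_
  · simp only [lA, lB, yy, RR, rc]; ring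
  · simp only [lA, lB, yy, RR, rc]; linear_combination (g * x - (b + 3 * g) * y) * hrel
  · intro k h1 h2
    have e1 : lA b g (k + 2) = 7 * lA b g (k + 1) - lA b g k := rfl
    have e2 : lB b g (k + 2) = 7 * lB b g (k + 1) - lB b g k := rfl
    have e3 : yy (k + 2) = 7 * yy (k + 1) - yy k := rfl
    have e4 : RR b g (k + 2) = 7 * RR b g (k + 1) - RR b g k := rfl
    rw [e4, e3, e1, e2]
    linear_combination 7 * h2 - h1

theorem l_P (hc : 0 < b + 3 * g) (hrel : b ^ 2 + 3 * b * g = 9 * g ^ 2 + 1) (j : ℕ) :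
    lA b g j * PA b g j + lB b g j * PB b g j = 1 := by
  have h1 := l_eq b g hrel (PA b g j) (PB b g j) j
  rw [PA_A, PA_B b g hrel] at h1
  have h2 := RR_det b g j
  have h3 : (b + 3 * g) ^ 2 * (lA b g j * PA b g j + lB b g j * PB b g j) = (b + 3 * g) ^ 2 * 1 := by
    linear_combination h1 + h2
  exact mul_left_cancel₀ (by positivity) h3

end

/-- the differences of the sequence `RR` -/
theorem RR_diff (N : ℕ) (b g : ℤ) (hb : b = d (N + 1)) (hc : b + 3 * g = d (N + 2)) :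
    ∀ j, ∀ m, N = m + j → RR b g j - RR b g (j + 1) = 3 * yy m - 2 * yy j := by
  refine two_step ?_ ?_ ?_
  · intro m hm
    have e : N = m := by omega
    subst e
    have := q1 N
    simp only [RR, yy, rc]
    rw [hc, hb]
    simp only [yy] at this
    linear_combination this
  · intro m hm
    subst hm
    have := q2 m
    simp only [RR, yy, rc]
    rw [hc, hb]
    simp only [yy] at this
    have e1 : d (m + 1 + 1) = d (m + 2) := rfl
    have e2 : d (m + 1 + 2) = d (m + 3) := rfl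
    rw [e1, e2]
    linear_combination this
  · intro k h1 h2 m hm
    have h3 := h1 (m + 2) (by omega)
    have h4 := h2 (m + 1) (by omega)
    have e3 : RR b g (k + 2) = 7 * RR b g (k + 1) - RR b g k := rfl
    have e4 : RR b g (k + 2 + 1) = 7 * RR b g (k + 1 + 1) - RR b g (k + 1) := rfl
    have e5 : yy (k + 2) = 7 * yy (k + 1) - yy k := rfl
    have e6 : yy (m + 2) = 7 * yy (m + 1) - yy m := rfl
    rw [e4, e3, e5]
    rw [e6] at h3
    have e7 : RR b g (k + 1 + 1) = 7 * RR b g (k + 1) - RR b g k := rfl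
    linear_combination 7 * h4 - h3 + 7 * e7

theorem RR_pos (N : ℕ) (b g : ℤ) (hb : b = d (N + 1)) (hc : b + 3 * g = d (N + 2)) (j : ℕ)
    (hj : j + 1 ≤ N) : 0 < RR b g (j + 1) := by
  obtain ⟨m, rfl⟩ : ∃ m, N = m + (j + 1) := ⟨N - (j + 1), by omega⟩
  have h1 := RR_diff _ b g hb hc j (m + 1) (by omega)
  have h2 := RR_diff _ b g hb hc (j + 1) m (by omega)
  have e3 : RR b g (j + 1 + 1) = 7 * RR b g (j + 1) - RR b g j := rfl
  have h3 := (yy_step m).2
  have h4 := (yy_step j).2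
  rw [e3] at h2
  omega

theorem RR_anti (N : ℕ) (b g : ℤ) (hb : b = d (N + 1)) (hc : b + 3 * g = d (N + 2)) (j : ℕ)
    (hj : 2 * j ≤ N) : 0 ≤ RR b g j - RR b g (j + 1) := by
  obtain ⟨m, rfl⟩ : ∃ m, N = m + j := ⟨N - j, by omega⟩
  rw [RR_diff _ b g hb hc j m rfl]
  have h1 := yy_mono (show j ≤ m by omega)
  have h2 := (yy_step j).1
  omega

/-! ### the semigroup -/

variable {K : Type} [Field K] [Algebra ℂ K]

/-- The semigroup of the cone. -/
theorem mem_Mset1 (b g : ℤ) (u : Fin 2 → ℤ) : u ∈ Mset (Mx b g 1) 0 ↔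
    0 ≤ g * u 0 - (b + 3 * g) * u 1 ∧ 0 ≤ (b + 4 * g) * u 0 - (b + 3 * g) * u 1 := by
  have h : u ∈ Mset (Mx b g 1) 0 ↔ ∀ j : Fin 2, 0 ≤ pr u (ray b g (idx 1 j)) := by
    constructor
    · intro h j
      rw [← vecMul_Mx]; exact h j
    · intro h j
      rw [vecMul_Mx]; exact h j
  rw [h]
  constructor
  · intro h
    have h0 := h 0
    have h1 := h 1
    simp [pr, ray, idx] at h0 h1
    constructor
    · linarith
    · linarith
  · rintro ⟨h0, h1⟩ j
    fin_cases j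
    · simp [pr, ray, idx]; linarith
    · simp [pr, ray, idx]; linarith

/-- the `j`-th irreducible element -/
def Pv (b g : ℤ) (j : ℕ) : Fin 2 → ℤ := ![PA b g j, PB b g j]

/-- the functional that detects it -/
def lam (b g : ℤ) (j : ℕ) (u : Fin 2 → ℤ) : ℤ := lA b g j * u 0 + lB b g j * u 1

theorem lam_add (b g : ℤ) (j : ℕ) (u v : Fin 2 → ℤ) :
    lam b g j (u + v) = lam b g j u + lam b g j v := by
  unfold lam; simp only [Pi.add_apply]; ring

structure Good (N : ℕ) (b g : ℤ) : Prop where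
  hb : b = d (N + 1)
  hc : b + 3 * g = d (N + 2)
  hrel : b ^ 2 + 3 * b * g = 9 * g ^ 2 + 1

theorem Good.cpos {N : ℕ} {b g : ℤ} (h : Good N b g) : 0 < b + 3 * g := by
  rw [h.hc]; exact (d_pos (N + 2)).1

theorem lam_pos {N : ℕ} {b g : ℤ} (h : Good N b g) {j : ℕ} (hj : 1 ≤ j) (hj' : j ≤ N)
    {u : Fin 2 → ℤ} (hu : u ∈ Mset (Mx b g 1) 0) (hne : u ≠ 0) : 1 ≤ lam b g j u := by
  obtain ⟨h1, h2⟩ := (mem_Mset1 b g u).1 hu
  have hc := h.cpos
  have h3 := l_eq b g h.hrel (u 0) (u 1) j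
  have h4 : 0 < yy j := by
    have := yy_mono hj
    have e : yy 1 = 1 := rfl
    omega
  have h5 : 0 < RR b g j := by
    obtain ⟨i, rfl⟩ : ∃ i, j = i + 1 := ⟨j - 1, by omega⟩
    exact RR_pos N b g h.hb h.hc i hj'
  have h6 : 0 < (b + 3 * g) ^ 2 * (lA b g j * u 0 + lB b g j * u 1) := by
    rw [h3]
    rcases h1.lt_or_eq with h7 | h7
    · have := mul_pos h7 h4
      have := mul_nonneg h2 h5.le
      linarith
    · rcases h2.lt_or_eq with h8 | h8
      · have := mul_pos h8 h5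
        have := mul_nonneg h1 h4.le
        linarith
      · exfalso
        apply hne
        have h9 : (b + 3 * g) * u 0 = 0 := by linear_combination h7 - h8
        have h10 : u 0 = 0 := (mul_eq_zero.1 h9).resolve_left hc.ne'
        rw [h10] at h7
        have h11 : (b + 3 * g) * u 1 = 0 := by linear_combination h7
        have h12 : u 1 = 0 := (mul_eq_zero.1 h11).resolve_left hc.ne'
        ext i
        fin_cases i
        · exact h10
        · exact h12
  have h7 : 0 < lA b g j * u 0 + lB b g j * u 1 := by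
    by_contra hcon
    have h8 : (b + 3 * g) ^ 2 * (lA b g j * u 0 + lB b g j * u 1) ≤ 0 :=
      mul_nonpos_of_nonneg_of_nonpos (by positivity) (by omega)
    omega
  unfold lam
  omega

theorem Pv_mem {N : ℕ} {b g : ℤ} (h : Good N b g) {j : ℕ} (hj : 2 * j ≤ N) :
    Pv b g j ∈ Mset (Mx b g 1) 0 := by
  rw [mem_Mset1]
  show 0 ≤ g * PA b g j - (b + 3 * g) * PB b g j ∧
    0 ≤ (b + 4 * g) * PA b g j - (b + 3 * g) * PB b g j
  rw [PA_A, PA_B b g h.hrel]
  exact ⟨RR_anti N b g h.hb h.hc j hj, by have := (yy_step j).2; omega⟩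

theorem Pv_lam {N : ℕ} {b g : ℤ} (h : Good N b g) (j : ℕ) : lam b g j (Pv b g j) = 1 :=
  l_P b g h.cpos h.hrel j

theorem Pv_ne {N : ℕ} {b g : ℤ} (h : Good N b g) (j : ℕ) : Pv b g j ≠ 0 := by
  intro hc
  have := Pv_lam h j
  rw [hc] at this
  simp [lam] at this

theorem Pv_inj {N : ℕ} {b g : ℤ} (h : Good N b g) : Function.Injective (Pv b g) := by
  have key : StrictMono fun j => (b + 4 * g) * PA b g j - (b + 3 * g) * PB b g j := by
    refine strictMono_nat_of_lt_succ fun j => ?_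
    rw [PA_B b g h.hrel, PA_B b g h.hrel]
    have h1 := yy_step j
    have h2 := yy_succ2 j
    have e : yy (j + 1 + 1) = yy (j + 2) := rfl
    rw [e]
    omega
  intro i j hij
  apply key.injective
  have h0 : PA b g i = PA b g j := congrFun hij 0
  have h1 : PB b g i = PB b g j := congrFun hij 1
  show (b + 4 * g) * PA b g i - (b + 3 * g) * PB b g i =
    (b + 4 * g) * PA b g j - (b + 3 * g) * PB b g j
  rw [h0, h1]

/-- irreducibility -/
theorem Pv_irr {N : ℕ} {b g : ℤ} (h : Good N b g) {j : ℕ} (hj : 1 ≤ j) (hj' : j ≤ N)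
    {u v : Fin 2 → ℤ} (hu : u ∈ Mset (Mx b g 1) 0) (hv : v ∈ Mset (Mx b g 1) 0)
    (hu0 : u ≠ 0) (hv0 : v ≠ 0) : u + v ≠ Pv b g j := by
  intro hc
  have h1 := Pv_lam h j
  rw [← hc, lam_add] at h1
  have h2 := lam_pos h hj hj' hu hu0
  have h3 := lam_pos h hj hj' hv hv0
  omega

theorem add_ne {N : ℕ} {b g : ℤ} (h : Good N b g) (hN : 1 ≤ N)
    {u v : Fin 2 → ℤ} (hu : u ∈ Mset (Mx b g 1) 0) (hv : v ∈ Mset (Mx b g 1) 0)
    (hu0 : u ≠ 0) (hv0 : v ≠ 0) : u + v ≠ 0 := by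
  intro hc
  have h2 := lam_pos h le_rfl hN hu hu0
  have h3 := lam_pos h le_rfl hN hv hv0
  have h4 : lam b g 1 (u + v) = 0 := by rw [hc]; simp [lam]
  rw [lam_add] at h4
  omega

open Classical in
/-- the value of a monomial -/
def phi (b g : ℤ) (k : ℕ) (u : Fin 2 → ℤ) : Tz k :=
  if u = 0 then 1 else TrivSqZeroExt.inr (fun i => if u = Pv b g (i + 1) then 1 else 0)

theorem phi_zero (b g : ℤ) (k : ℕ) : phi b g k 0 = 1 := by
  unfold phi
  rw [if_pos rfl]

theorem phi_add {N : ℕ} {b g : ℤ} (h : Good N b g) (hN : 1 ≤ N) {k : ℕ} (hk : k ≤ N)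
    {u v : Fin 2 → ℤ} (hu : u ∈ Mset (Mx b g 1) 0) (hv : v ∈ Mset (Mx b g 1) 0) :
    phi b g k (u + v) = phi b g k u * phi b g k v := by
  by_cases hu0 : u = 0
  · rw [hu0, zero_add, phi_zero, one_mul]
  by_cases hv0 : v = 0
  · rw [hv0, add_zero, phi_zero, mul_one]
  unfold phi
  rw [if_neg hu0, if_neg hv0, if_neg (add_ne h hN hu hv hu0 hv0), TrivSqZeroExt.inr_mul_inr]
  have : (fun i : Fin k => if u + v = Pv b g (i + 1) then (1 : ℂ) else 0) = 0 := by
    funext i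
    rw [if_neg (Pv_irr h (by omega) (by omega) hu hv hu0 hv0)]
    rfl
  rw [this]
  exact TrivSqZeroExt.inr_zero ℂ

theorem exists_Theta (T : TorusField 2 K) (b g : ℤ) (k : ℕ) :
    ∃ Θ : K →ₗ[ℂ] Tz k, ∀ u, Θ (T.χ u) = phi b g k u := by
  have hmem : ∀ u, T.χ u ∈ Submodule.span ℂ (Set.range T.χ) := fun u =>
    Submodule.subset_span ⟨u, rfl⟩
  obtain ⟨Θ, hΘ⟩ := LinearMap.exists_extend (p := Submodule.span ℂ (Set.range T.χ))
    ((Finsupp.linearCombination ℂ (phi b g k)) ∘ₗ T.li.repr)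
  refine ⟨Θ, fun u => ?_⟩
  have h1 := LinearMap.congr_fun hΘ ⟨T.χ u, hmem u⟩
  have h2 : T.li.repr ⟨T.χ u, hmem u⟩ = Finsupp.single u 1 :=
    T.li.repr_eq_single u _ rfl
  have h3 : Θ (T.χ u) = Finsupp.linearCombination ℂ (phi b g k) (T.li.repr ⟨T.χ u, hmem u⟩) := h1
  rw [h3, h2, Finsupp.linearCombination_single, one_smul]

/-- the homomorphism from the coordinate ring to the square zero extension -/
theorem exists_theta (T : TorusField 2 K) {N : ℕ} {b g : ℤ} (h : Good N b g) (hN : 1 ≤ N) {k : ℕ}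
    (hk : k ≤ N) : ∃ θ : cone T (Mx b g 1) →ₐ[ℂ] Tz k,
      ∀ (u : Fin 2 → ℤ) (hu : T.χ u ∈ cone T (Mx b g 1)), θ ⟨T.χ u, hu⟩ = phi b g k u := by
  obtain ⟨Θ, hΘ⟩ := exists_Theta T b g k
  have hmul : ∀ x ∈ mspan T (Mx b g 1) 0, ∀ y ∈ mspan T (Mx b g 1) 0, Θ (x * y) = Θ x * Θ y := by
    intro x hx y hy
    unfold mspan at hx hy
    induction hx using Submodule.span_induction with
    | mem x hx =>
      obtain ⟨u, hu, rfl⟩ := hx
      induction hy using Submodule.span_induction with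
      | mem y hy =>
        obtain ⟨v, hv, rfl⟩ := hy
        rw [← T.χ_add, hΘ, hΘ, hΘ, phi_add h hN hk hu hv]
      | zero => rw [mul_zero, map_zero, mul_zero]
      | add y y' _ _ h1 h2 => rw [mul_add, map_add, map_add, h1, h2, mul_add]
      | smul c y _ h1 => rw [mul_smul_comm, map_smul, map_smul, h1, mul_smul_comm]
    | zero => rw [zero_mul, map_zero, zero_mul]
    | add x x' _ _ h1 h2 => rw [add_mul, map_add, map_add, h1, h2, add_mul]
    | smul c x _ h1 => rw [smul_mul_assoc, map_smul, map_smul, h1, smul_mul_assoc]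
  refine ⟨AlgHom.ofLinearMap (Θ ∘ₗ (cone T (Mx b g 1)).val.toLinearMap) ?_ ?_, ?_⟩
  · show Θ 1 = 1
    rw [← T.χ_zero, hΘ, phi_zero]
  · intro x y
    exact hmul x.1 ((mem_cone T _ _).1 x.2) y.1 ((mem_cone T _ _).1 y.2)
  · intro u hu
    exact hΘ u

/-- A closed embedding of `P(1, b², c²)` needs many coordinates. -/
theorem emb_bound (T : TorusField 2 K) (n : ℕ) (hn : 1 ≤ n) {N : ℕ} (ξ : Fin (N + 1) → K)
    (h : IsEmbedding (toricVar T (dataN n)) ξ) : n ≤ N + 1 := by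
  have hgood : Good (2 * n) (d (2 * n + 1)) (gg n) := ⟨rfl, (gg_eq n).symm, rel n⟩
  obtain ⟨θ, hθ⟩ := exists_theta T hgood (by omega) (k := n) (by omega)
  have hpt : locRing (cone T (Mx (d (2 * n + 1)) (gg n) 1)) (pt _ θ) ∈
      (toricVar T (dataN n)).points := ⟨(1 : Fin 3), pt _ θ, pt_prime _ θ, rfl⟩
  rw [h] at hpt
  obtain ⟨i, _, p, hp, he⟩ := hpt
  refine emb_le (fun j => ξ j / ξ i) p hp he ?_
  intro v
  have hP : ∀ k : Fin n, T.χ (Pv (d (2 * n + 1)) (gg n) (k + 1)) ∈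
      cone T (Mx (d (2 * n + 1)) (gg n) 1) := fun k =>
    mem_cone_chi T _ (Pv_mem hgood (by omega))
  refine ⟨∑ k : Fin n, v k • ⟨_, hP k⟩, ?_⟩
  rw [map_sum, TrivSqZeroExt.snd_sum]
  funext i
  rw [Finset.sum_apply, Finset.sum_eq_single i]
  · rw [map_smul, hθ, TrivSqZeroExt.snd_smul]
    unfold phi
    rw [if_neg (Pv_ne hgood _), TrivSqZeroExt.snd_inr, Pi.smul_apply, if_pos rfl, smul_eq_mul,
      mul_one]
  · intro j _ hj
    rw [map_smul, hθ, TrivSqZeroExt.snd_smul]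
    unfold phi
    rw [if_neg (Pv_ne hgood _), TrivSqZeroExt.snd_inr, Pi.smul_apply, if_neg, smul_zero]
    intro h1
    have h2 := Pv_inj hgood h1
    apply hj
    ext
    omega
  · intro h1
    exact absurd (Finset.mem_univ _) h1

end Pool.Agent.H993R3
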