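import Mathlib

/-! Laurent polynomials in two variables over `ℂ`: supports, leading parts. -/

noncomputable section

namespace Pool.Agent.H993R3

/-- Laurent polynomials in two variables. -/
abbrev Lam : Type := AddMonoidAlgebra ℂ (ℤ × ℤ)

/-- the monomial with exponent `e` -/
def Xm (e : ℤ × ℤ) : Lam := AddMonoidAlgebra.single e 1

theorem Xm_mul (e f : ℤ × ℤ) : Xm e * Xm f = Xm (e + f) := by
  unfold Xm
  rw [AddMonoidAlgebra.single_mul_single, one_mul]

theorem Xm_zero : Xm 0 = 1 := rfl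

theorem Xm_ne (e : ℤ × ℤ) : Xm e ≠ 0 := by
  unfold Xm
  rw [AddMonoidAlgebra.single_ne_zero]
  exact one_ne_zero

theorem Xm_pow (e : ℤ × ℤ) (n : ℕ) : Xm e ^ n = Xm (n • e) := by
  unfold Xm
  rw [AddMonoidAlgebra.single_pow, one_pow]

/-- Laurent polynomials with support in `S` -/
def Sp (S : Set (ℤ × ℤ)) : Submodule ℂ Lam where
  carrier := {p | ∀ e, p.coeff e ≠ 0 → e ∈ S}
  add_mem' := by
    intro p q hp hq e he
    by_contra h
    apply he
    have h1 : p.coeff e = 0 := by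
      by_contra h1; exact h (hp e h1)
    have h2 : q.coeff e = 0 := by
      by_contra h2; exact h (hq e h2)
    rw [AddMonoidAlgebra.coeff_add, Finsupp.add_apply, h1, h2, add_zero]
  zero_mem' := by
    intro e he
    exact absurd rfl he
  smul_mem' := by
    intro c p hp e he
    apply hp
    intro h
    apply he
    rw [AddMonoidAlgebra.coeff_smul, Finsupp.smul_apply, h, smul_zero]

theorem mem_Sp {S : Set (ℤ × ℤ)} {p : Lam} : p ∈ Sp S ↔ ∀ e, p.coeff e ≠ 0 → e ∈ S := Iff.rfl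

theorem Sp_mono {S S' : Set (ℤ × ℤ)} (h : S ⊆ S') : Sp S ≤ Sp S' :=
  fun _ hp e he => h (hp e he)

theorem Xm_mem {S : Set (ℤ × ℤ)} {e : ℤ × ℤ} (h : e ∈ S) : Xm e ∈ Sp S := by
  intro f hf
  unfold Xm at hf
  rw [AddMonoidAlgebra.coeff_single, Finsupp.single_apply] at hf
  split_ifs at hf with h1
  · rwa [← h1]
  · exact absurd rfl hf

theorem coeff_Xm (e f : ℤ × ℤ) : (Xm e).coeff f = if e = f then 1 else 0 := by
  unfold Xm
  rw [AddMonoidAlgebra.coeff_single, Finsupp.single_apply]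

theorem Sp_mul {S S' S'' : Set (ℤ × ℤ)} (h : ∀ e ∈ S, ∀ f ∈ S', e + f ∈ S'') {p q : Lam}
    (hp : p ∈ Sp S) (hq : q ∈ Sp S') : p * q ∈ Sp S'' := by
  classical
  intro e he
  have h1 : e ∈ (p * q).coeff.support := Finsupp.mem_support_iff.2 he
  have h2 := AddMonoidAlgebra.support_coeff_mul_subset p q h1
  obtain ⟨a, ha, b, hb, rfl⟩ := Finset.mem_add.1 h2
  exact h a (hp a (Finsupp.mem_support_iff.1 ha)) b (hq b (Finsupp.mem_support_iff.1 hb))

theorem Sp_eq_span (S : Set (ℤ × ℤ)) : Sp S = Submodule.span ℂ (Xm '' S) := by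
  apply le_antisymm
  · intro p hp
    have h1 : p = p.coeff.sum fun e a => a • Xm e := by
      conv_lhs => rw [← AddMonoidAlgebra.sum_coeff_single p]
      refine Finsupp.sum_congr fun e _ => ?_
      unfold Xm
      rw [AddMonoidAlgebra.smul_single, smul_eq_mul, mul_one]
    rw [h1]
    refine Submodule.sum_mem _ fun e he => Submodule.smul_mem _ _ (Submodule.subset_span ?_)
    exact ⟨e, hp e (Finsupp.mem_support_iff.1 he), rfl⟩
  · rw [Submodule.span_le]
    rintro _ ⟨e, he, rfl⟩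
    exact Xm_mem he

theorem sum_Xm (p : Lam) : p = p.coeff.sum fun e a => a • Xm e := by
  conv_lhs => rw [← AddMonoidAlgebra.sum_coeff_single p]
  refine Finsupp.sum_congr fun e _ => ?_
  unfold Xm
  rw [AddMonoidAlgebra.smul_single, smul_eq_mul, mul_one]

/-- level sets -/
def L (l : (ℤ × ℤ) →+ ℤ) (k : ℤ) : Submodule ℂ Lam := Sp {e | k ≤ l e}

theorem L_mono (l : (ℤ × ℤ) →+ ℤ) {j k : ℤ} (h : j ≤ k) : L l k ≤ L l j :=
  Sp_mono fun _ he => h.trans he

theorem L_mul (l : (ℤ × ℤ) →+ ℤ) {j k : ℤ} {p q : Lam} (hp : p ∈ L l j) (hq : q ∈ L l k) :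
    p * q ∈ L l (j + k) :=
  Sp_mul (fun e he f hf => by
    simp only [Set.mem_setOf_eq, map_add] at *
    exact add_le_add he hf) hp hq

theorem one_mem_L (l : (ℤ × ℤ) →+ ℤ) : (1 : Lam) ∈ L l 0 := by
  rw [← Xm_zero]
  exact Xm_mem (by simp)

theorem L_pow (l : (ℤ × ℤ) →+ ℤ) {j : ℤ} {p : Lam} (hp : p ∈ L l j) (n : ℕ) :
    p ^ n ∈ L l (n * j) := by
  induction n with
  | zero => simpa using one_mem_L l
  | succ n ih =>
    rw [pow_succ]
    have := L_mul l ih hp
    have e : ((n + 1 : ℕ) : ℤ) * j = n * j + j := by push_cast; ring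
    rwa [e]

theorem pow_sub_one_mem (l : (ℤ × ℤ) →+ ℤ) {q : Lam} (hq : q - 1 ∈ L l 1) (n : ℕ) :
    q ^ n - 1 ∈ L l 1 := by
  induction n with
  | zero => simp
  | succ n ih =>
    have h1 : q ^ (n + 1) - 1 = (q ^ n - 1) * (q - 1) + (q ^ n - 1) + (q - 1) := by ring
    rw [h1]
    refine add_mem (add_mem ?_ ih) hq
    exact L_mono l (by norm_num) (L_mul l ih hq)

theorem mul_pow_sub_mem (l : (ℤ × ℤ) →+ ℤ) {q p : Lam} {k : ℤ} (hq : q - 1 ∈ L l 1) (n : ℕ)
    (hp : p ∈ L l k) : p * q ^ n - p ∈ L l (k + 1) := by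
  have h : p * q ^ n - p = p * (q ^ n - 1) := by ring
  rw [h]
  exact L_mul l hp (pow_sub_one_mem l hq n)

/-- every Laurent polynomial lies in some level -/
theorem exists_L (l : (ℤ × ℤ) →+ ℤ) (p : Lam) : ∃ k, p ∈ L l k := by
  classical
  by_cases h : p.coeff.support.Nonempty
  · obtain ⟨e, _, he⟩ := Finset.exists_min_image p.coeff.support l h
    exact ⟨l e, fun f hf => he f (Finsupp.mem_support_iff.2 hf)⟩
  · refine ⟨0, fun f hf => ?_⟩
    exact absurd ⟨f, Finsupp.mem_support_iff.2 hf⟩ h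

theorem eq_zero_of_L (l : (ℤ × ℤ) →+ ℤ) (p : Lam) (h : ∀ k, p ∈ L l k) : p = 0 := by
  apply AddMonoidAlgebra.ext
  ext e
  by_contra he
  have h1 := h (l e + 1) e he
  simp only [Set.mem_setOf_eq] at h1
  omega

/-- The main comparison lemma. -/
theorem compare {ι : Type*} (l : (ℤ × ℤ) →+ ℤ) (s : Finset ι) (c : ι → ℂ) (E : ι → ℤ × ℤ)
    (hE : Set.InjOn E s) (k : ι → ℕ) (q B : Lam) (hq : q - 1 ∈ L l 1) (N : ℕ)
    (h : B * q ^ N = ∑ i ∈ s, (c i • Xm (E i)) * q ^ k i) :
    (∀ m, B ∈ L l m ↔ ∀ i ∈ s, c i ≠ 0 → m ≤ l (E i)) ∧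
    (∀ m, B ∈ L l m → B - ∑ i ∈ s, c i • Xm (E i) ∈ L l (m + 1)) := by
  classical
  set H : Lam := ∑ i ∈ s, c i • Xm (E i) with hH
  have hcoeff : ∀ i ∈ s, H.coeff (E i) = c i := by
    intro i hi
    rw [hH, AddMonoidAlgebra.coeff_sum, Finsupp.finsetSum_apply, Finset.sum_eq_single i]
    · rw [AddMonoidAlgebra.coeff_smul, Finsupp.smul_apply, coeff_Xm, if_pos rfl, smul_eq_mul,
        mul_one]
    · intro j hj hji
      rw [AddMonoidAlgebra.coeff_smul, Finsupp.smul_apply, coeff_Xm, if_neg, smul_zero]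
      exact fun hc => hji (hE hj hi hc)
    · exact fun hc => absurd hi hc
  have hHL : ∀ m, H ∈ L l m ↔ ∀ i ∈ s, c i ≠ 0 → m ≤ l (E i) := by
    intro m
    constructor
    · intro hm i hi hci
      exact hm (E i) (by rwa [hcoeff i hi])
    · intro hm
      refine Submodule.sum_mem _ fun i hi => ?_
      by_cases hci : c i = 0
      · rw [hci, zero_smul]; exact Submodule.zero_mem _
      · exact Submodule.smul_mem _ _ (Xm_mem (hm i hi hci))
  have key : ∀ m, B ∈ L l m → H ∈ L l m → B - H ∈ L l (m + 1) := by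
    intro m hB hHm
    have h1 : B - H = (B - B * q ^ N) + ∑ i ∈ s, ((c i • Xm (E i)) * q ^ k i - c i • Xm (E i)) := by
      rw [Finset.sum_sub_distrib, ← h, ← hH]; ring
    rw [h1]
    refine add_mem ?_ (Submodule.sum_mem _ fun i hi => ?_)
    · have := mul_pow_sub_mem l hq N hB
      have h2 : B - B * q ^ N = -(B * q ^ N - B) := by ring
      rw [h2]
      exact Submodule.neg_mem _ this
    · apply mul_pow_sub_mem l hq
      by_cases hci : c i = 0
      · rw [hci, zero_smul]; exact Submodule.zero_mem _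
      · exact Submodule.smul_mem _ _ (Xm_mem ((hHL m).1 hHm i hi hci))
  have up : ∀ (P Q : Lam), (∀ m, P ∈ L l m → Q ∈ L l m → P - Q ∈ L l (m + 1)) →
      ∀ m, Q ∈ L l m → P ∈ L l m := by
    intro P Q hPQ m hQ
    obtain ⟨j, hj⟩ := exists_L l P
    have : ∀ n : ℕ, P ∈ L l (min (j + n) m) := by
      intro n
      induction n with
      | zero => exact L_mono l (by simp) hj
      | succ n ih =>
        rcases le_total m (j + n) with h1 | h1
        · rw [min_eq_right (by push_cast; omega)]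
          rwa [min_eq_right h1] at ih
        · rw [min_eq_left h1] at ih
          have h2 := hPQ (j + n) ih (L_mono l h1 hQ)
          have h3 : P = (P - Q) + Q := by ring
          rw [h3]
          refine add_mem (L_mono l ?_ h2) (L_mono l ?_ hQ)
          · push_cast; exact (min_le_left _ _).trans (by omega)
          · exact min_le_right _ _
    have h4 := this (m - j).toNat
    rwa [min_eq_right (by omega)] at h4
  have hBH : ∀ m, B ∈ L l m ↔ H ∈ L l m := by
    intro m
    constructor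
    · apply up
      intro m' h1 h2
      have := key m' h2 h1
      have e : H - B = -(B - H) := by ring
      rw [e]; exact Submodule.neg_mem _ this
    · exact up B H key m
  exact ⟨fun m => (hBH m).trans (hHL m), fun m hm => key m hm ((hBH m).1 hm)⟩

end Pool.Agent.H993R3
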