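import Pool.Agent.H993R3.Deg

/-! Supports of the leading forms of homogeneous polynomials in the cluster charts. -/

noncomputable section

namespace Pool.Agent.H993R3

open MvPolynomial (X)

theorem Phi_deg (n k : ℕ) (g : P3) (hg : g ∈ Hom k) : Phi n g ∈ L (-dg n) (-(k : ℤ)) := by
  induction n with
  | zero =>
    have h := hom_induct (Phi 0) (fun k => L (-dg 0) (-(k : ℤ))) (by
        simpa using one_mem_L (-dg 0)) (fun k p q hp hq => by
        have h1 := L_mul _ hp hq
        have e : -(k : ℤ) + -((1 : ℕ) : ℤ) = -((k + 1 : ℕ) : ℤ) := by push_cast; ring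
        rwa [e] at h1) ?_ k g hg
    · exact h
    · have hq : qq ∈ L (-dg 0) (-3) := by
        unfold qq
        refine add_mem (L_mono _ (by norm_num) (one_mem_L _)) (Xm_mem ?_)
        show -3 ≤ -(dg 0 (0, 3))
        rw [dg_apply]; decide
      intro i
      rw [Phi_zero]
      fin_cases i
      · change Phi0 (X 0) ∈ _
        rw [Phi0_X0]
        exact Xm_mem (by show _ ≤ -(dg 0 (0, 1)); rw [dg_apply]; decide)
      · change Phi0 (X 1) ∈ _
        rw [Phi0_X1]
        have h1 : Xm (-1, 0) ∈ L (-dg 0) 2 := Xm_mem (by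
          show _ ≤ -(dg 0 (-1, 0)); rw [dg_apply]; decide)
        have h2 := L_mul _ h1 hq
        exact h2
      · change Phi0 (X 2) ∈ _
        rw [Phi0_X2]
        refine add_mem (Xm_mem (by show _ ≤ -(dg 0 (1, -1)); rw [dg_apply]; decide)) ?_
        have h1 : Xm (-2, -1) ∈ L (-dg 0) 5 := Xm_mem (by
          show _ ≤ -(dg 0 (-2, -1)); rw [dg_apply]; decide)
        have h2 := L_mul _ h1 (L_pow _ hq 2)
        exact h2
  | succ n ih =>
    have h1 := (cmp2 (-dg n) (by
      show -(dg n (0, 1)) < 0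
      rw [dg_apply]
      have := (d_pos n).2.1
      simp only
      linarith) (Phi (n + 1) g) (Phi n g) (kap_Phi n g) (-(k : ℤ))).1 ih
    intro e he
    have h2 := h1 e he
    show -(k : ℤ) ≤ -(dg (n + 1) e)
    have h3 : (-dg n) (rho' e) = -(dg (n + 1) e) := by
      show -(dg n (rho' e)) = _
      rw [dg_apply, dg_apply, d_succ2]
      unfold rho'
      simp only
      ring
    rwa [h3] at h2

/-- degree in the chart `n` modulo 3 -/
def dc (n : ℕ) : (ℤ × ℤ) →+ ZMod 3 := (Int.castAddHom (ZMod 3)).comp (dg n)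

theorem dc_apply (n : ℕ) (e : ℤ × ℤ) : dc n e = ((dg n e : ℤ) : ZMod 3) := rfl

theorem Phi_cls (n k : ℕ) (g : P3) (hg : g ∈ Hom k) : Phi n g ∈ Sp {e | dc n e = (k : ZMod 3)} := by
  induction n with
  | zero =>
    have h := hom_induct (Phi 0) (fun k => Sp {e | dc 0 e = (k : ZMod 3)}) (by
        rw [← Xm_zero]; exact Xm_mem (by simp)) (fun k p q hp hq => by
        refine Sp_mul (fun a ha b hb => ?_) hp hq
        simp only [Set.mem_ofPred_eq] at *
        rw [map_add, ha, hb]; push_cast; ring) ?_ k g hg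
    · exact h
    · have hq : qq ∈ Sp {e | dc 0 e = 0} := by
        unfold qq
        refine add_mem (by rw [← Xm_zero]; exact Xm_mem (by simp)) (Xm_mem ?_)
        show dc 0 (0, 3) = 0
        rw [dc_apply, dg_apply]; decide
      intro i
      rw [Phi_zero]
      fin_cases i
      · change Phi0 (X 0) ∈ _
        rw [Phi0_X0]
        exact Xm_mem (by show dc 0 (0, 1) = _; rw [dc_apply, dg_apply]; decide)
      · change Phi0 (X 1) ∈ _
        rw [Phi0_X1]
        have h1 : Xm (-1, 0) ∈ Sp {e | dc 0 e = 1} := Xm_mem (by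
          show dc 0 (-1, 0) = _; rw [dc_apply, dg_apply]; decide)
        refine Sp_mul (fun a ha b hb => ?_) h1 hq
        simp only [Set.mem_ofPred_eq] at *
        rw [map_add, ha, hb]; decide
      · change Phi0 (X 2) ∈ _
        rw [Phi0_X2]
        refine add_mem (Xm_mem (by show dc 0 (1, -1) = _; rw [dc_apply, dg_apply]; decide)) ?_
        have h1 : Xm (-2, -1) ∈ Sp {e | dc 0 e = 1} := Xm_mem (by
          show dc 0 (-2, -1) = _; rw [dc_apply, dg_apply]; decide)
        have h2 : qq ^ 2 ∈ Sp {e | dc 0 e = 0} := by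
          rw [pow_two]
          refine Sp_mul (fun a ha b hb => ?_) hq hq
          simp only [Set.mem_ofPred_eq] at *
          rw [map_add, ha, hb]; decide
        refine Sp_mul (fun a ha b hb => ?_) h1 h2
        simp only [Set.mem_ofPred_eq] at *
        rw [map_add, ha, hb]; decide
  | succ n ih =>
    have h1 := cls (dc n) k (Phi (n + 1) g) (Phi n g) (kap_Phi n g) ih
    refine Sp_mono ?_ h1
    intro e he
    simp only [Set.mem_ofPred_eq] at *
    rw [← he, dc_apply, dc_apply, dg_apply, dg_apply, d_succ2]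
    unfold rho
    push_cast
    have h3 : (3 : ZMod 3) = 0 := by decide
    rw [h3]
    ring

/-- The polygon of the chart `n` in degree `k`. -/
def Cn (b c k : ℤ) : Set (ℤ × ℤ) :=
  {e | b * e.1 + c * e.2 ≤ k ∧ b * e.1 + (c - 3 * b) * e.2 ≤ k ∧ (b - 3 * c) * e.1 + c * e.2 ≤ k ∧
    (3 : ℤ) ∣ k - (b * e.1 + c * e.2)}

/-- the weight of the valuation -/
def wt : (ℤ × ℤ) →+ ℤ where
  toFun e := e.1 + e.2
  map_zero' := by simp
  map_add' := by
    intro e f
    simp only [Prod.fst_add, Prod.snd_add]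
    ring

theorem wt_apply (e : ℤ × ℤ) : wt e = e.1 + e.2 := rfl

def wt' : (ℤ × ℤ) →+ ℤ where
  toFun e := -e.1 + e.2
  map_zero' := by simp
  map_add' := by
    intro e f
    simp only [Prod.fst_add, Prod.snd_add]
    ring

/-- The leading form of a homogeneous polynomial is supported in the polygon. -/
theorem lead_supp (n k : ℕ) (g : P3) (hg : g ∈ Hom k) (m : ℤ) (hm : Phi (n + 1) g ∈ L wt m)
    (e : ℤ × ℤ) (he : wt e = m) (hne : (Phi (n + 1) g).coeff e ≠ 0) :
    e ∈ Cn (d (n + 1)) (d (n + 2)) k := by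
  have h0 : dg (n + 1) e ≤ k := by
    have := Phi_deg (n + 1) k g hg e hne
    have h1 : -(k : ℤ) ≤ -(dg (n + 1) e) := this
    omega
  have hc : ((dg (n + 1) e : ℤ) : ZMod 3) = (k : ZMod 3) := Phi_cls (n + 1) k g hg e hne
  -- chart n + 2
  have h1 : d (n + 2) * e.2 - d (n + 3) * e.1 ≤ k := by
    have h2 := (cmp1 wt (by rw [wt_apply]; decide) (Phi (n + 2) g) (Phi (n + 1) g)
      (kap_Phi (n + 1) g)).2 m hm (e.2, -e.1) (by
        rw [← he, wt_apply, wt_apply]; unfold rho; simp)
    have h3 : rho (e.2, -e.1) = e := by unfold rho; simp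
    rw [h3] at h2
    have h4 : -(k : ℤ) ≤ -(dg (n + 2) (e.2, -e.1)) :=
      Phi_deg (n + 2) k g hg (e.2, -e.1) (by rwa [← h2])
    rw [dg_apply] at h4
    simp only at h4
    linarith
  -- chart n
  have h5 : d (n + 1) * e.1 - d n * e.2 ≤ k := by
    have h6 := cmp1 wt' (by show (0 : ℤ) < -0 + 1; norm_num) (Phi (n + 1) g) (Phi n g) (kap_Phi n g)
    have h7 : ∀ f : ℤ × ℤ, wt' (rho f) = wt f := by
      intro f
      show -(-f.2) + f.1 = f.1 + f.2
      ring
    have h8 : Phi n g ∈ L wt' m := by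
      rw [h6.1 m]
      intro f hf
      rw [h7]
      exact hm f hf
    have h9 := h6.2 m h8 e (by rw [h7, he])
    have h10 : -(k : ℤ) ≤ -(dg n (rho e)) := Phi_deg n k g hg (rho e) (by rwa [h9])
    rw [dg_apply] at h10
    unfold rho at h10
    simp only at h10
    linarith
  rw [dg_apply] at h0 hc
  refine ⟨h0, ?_, ?_, ?_⟩
  · have : d (n + 2) - 3 * d (n + 1) = - d n := by rw [d_succ2]; ring
    rw [this]; linarith
  · have : d (n + 1) - 3 * d (n + 2) = - d (n + 3) := by rw [d_succ2 (n + 1)]; ring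
    rw [this]; linarith
  · have h11 : ((((k : ℤ) - (d (n + 1) * e.1 + d (n + 1 + 1) * e.2) : ℤ)) : ZMod 3) = 0 := by
      rw [Int.cast_sub, hc]; simp
    exact (ZMod.intCast_zmod_eq_zero_iff_dvd _ 3).1 h11

end Pool.Agent.H993R3
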