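import Pool.Agent.H993R3.Data
import Pool.Agent.H993R3.Defs

/-! The filtration and the symbol maps. -/

noncomputable section

namespace Pool.Agent.H993R3

open Pool.Agent.Helper774.KSing
open Pool.Agent.Helper774.KStab (TorusField)
open MvPolynomial (X)

variable {K : Type} [Field K] [Algebra ℂ K]

/-! ### the symbol of a Laurent polynomial -/

open Classical in
/-- the monomial of `K` with exponent `e`, if `e` lies in the lattice of the functions of degree 0 -/
def chib (T : TorusField 2 K) (e : ℤ × ℤ) : K :=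
  if h : ∃ u, cv u = e then T.χ h.choose else 0

theorem chib_cv (T : TorusField 2 K) (u : Fin 2 → ℤ) : chib T (cv u) = T.χ u := by
  unfold chib
  have h : ∃ v, cv v = cv u := ⟨u, rfl⟩
  rw [dif_pos h, cv_inj h.choose_spec]

theorem cv_add (u v : Fin 2 → ℤ) : cv (u + v) = cv u + cv v := by
  unfold cv
  ext
  · rfl
  · simp only [Pi.add_apply, Prod.snd_add]; ring

theorem chib_add (T : TorusField 2 K) {e f : ℤ × ℤ} (he : e ∈ Set.range cv) (hf : f ∈ Set.range cv) :
    chib T (e + f) = chib T e * chib T f := by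
  obtain ⟨u, rfl⟩ := he
  obtain ⟨v, rfl⟩ := hf
  rw [← cv_add, chib_cv, chib_cv, chib_cv, T.χ_add]

open Classical in
/-- the symbol at level `l` -/
def symL (T : TorusField 2 K) (l : ℤ) : Lam →ₗ[ℂ] K :=
  (Finsupp.linearCombination ℂ fun e => if wt e = l then chib T e else 0) ∘ₗ
    (AddMonoidAlgebra.coeffLinearEquiv ℂ).toLinearMap

theorem symL_Xm (T : TorusField 2 K) (l : ℤ) (e : ℤ × ℤ) :
    symL T l (Xm e) = if wt e = l then chib T e else 0 := by
  classical
  unfold symL Xm
  rw [LinearMap.comp_apply]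
  have : (AddMonoidAlgebra.coeffLinearEquiv ℂ).toLinearMap (AddMonoidAlgebra.single e (1 : ℂ)) =
      Finsupp.single e 1 := rfl
  rw [this, Finsupp.linearCombination_single, one_smul]

theorem symL_eq (T : TorusField 2 K) (l : ℤ) (p : Lam) :
    symL T l p = ∑ e ∈ p.coeff.support, p.coeff e • (if wt e = l then chib T e else 0) := by
  conv_lhs => rw [sum_Xm p]
  unfold Finsupp.sum
  rw [map_sum]
  refine Finset.sum_congr rfl fun e _ => ?_
  rw [map_smul, symL_Xm]

theorem symL_zero (T : TorusField 2 K) (l : ℤ) {p : Lam} (hp : p ∈ L wt (l + 1)) :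
    symL T l p = 0 := by
  rw [symL_eq]
  refine Finset.sum_eq_zero fun e he => ?_
  have h1 : l + 1 ≤ wt e := hp e (Finsupp.mem_support_iff.1 he)
  rw [if_neg (by omega), smul_zero]

theorem symL_mul (T : TorusField 2 K) (l l' : ℤ) {p q : Lam} (hp : p ∈ L wt l) (hq : q ∈ L wt l')
    (hp' : p ∈ Sp (Set.range cv)) (hq' : q ∈ Sp (Set.range cv)) :
    symL T (l + l') (p * q) = symL T l p * symL T l' q := by
  rw [symL_eq T l p, symL_eq T l' q, Finset.sum_mul_sum]
  conv_lhs => rw [sum_Xm p, sum_Xm q]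
  unfold Finsupp.sum
  rw [Finset.sum_mul_sum, map_sum]
  refine Finset.sum_congr rfl fun e he => ?_
  rw [map_sum]
  refine Finset.sum_congr rfl fun f hf => ?_
  rw [smul_mul_smul_comm, Xm_mul, map_smul, symL_Xm, map_add, smul_mul_smul_comm]
  congr 1
  have h1 : l ≤ wt e := hp e (Finsupp.mem_support_iff.1 he)
  have h2 : l' ≤ wt f := hq f (Finsupp.mem_support_iff.1 hf)
  by_cases h3 : wt e = l
  · by_cases h4 : wt f = l'
    · rw [if_pos (by omega), if_pos h3, if_pos h4]
      exact chib_add T (hp' e (Finsupp.mem_support_iff.1 he)) (hq' f (Finsupp.mem_support_iff.1 hf))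
    · rw [if_neg (by omega), if_neg h4, mul_zero]
  · rw [if_neg (by omega), if_neg h3, zero_mul]

theorem symL_ker (T : TorusField 2 K) (l : ℤ) {p : Lam} (hp : p ∈ L wt l)
    (hp' : p ∈ Sp (Set.range cv)) (h : symL T l p = 0) : p ∈ L wt (l + 1) := by
  classical
  intro e he
  have h1 : l ≤ wt e := hp e he
  rcases eq_or_lt_of_le h1 with h2 | h2
  · exfalso
    -- the coefficients at level l vanish
    set s := p.coeff.support.filter fun e => wt e = l with hs
    have hcvs : ∀ e ∈ s, e ∈ Set.range cv := fun e he =>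
      hp' e (Finsupp.mem_support_iff.1 (Finset.mem_filter.1 he).1)
    have h3 : ∑ e ∈ s, p.coeff e • chib T e = 0 := by
      rw [symL_eq] at h
      rw [← h, hs, Finset.sum_filter]
      refine Finset.sum_congr rfl fun e _ => ?_
      split_ifs
      · rfl
      · rw [smul_zero]
    have h4 : LinearIndependent ℂ (fun e : s => chib T e.1) := by
      choose! v hv using hcvs
      have h5 : (fun e : s => chib T e.1) = T.χ ∘ fun e : s => v e.1 := by
        funext e
        have := hv e.1 e.2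
        show chib T e.1 = T.χ (v e.1)
        rw [← chib_cv, this]
      rw [h5]
      refine T.li.comp _ ?_
      intro a b hab
      have h6 := hv a.1 a.2
      have h7 := hv b.1 b.2
      have h8 : v a.1 = v b.1 := hab
      rw [h8, h7] at h6
      exact Subtype.ext h6.symm
    have h5 := Fintype.linearIndependent_iff.1 h4 (fun e => p.coeff e.1) (by
      rw [← h3, ← Finset.sum_coe_sort s (fun e => p.coeff e • chib T e)])
      ⟨e, Finset.mem_filter.2 ⟨Finsupp.mem_support_iff.2 he, h2.symm⟩⟩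
    exact he h5
  · exact h2

/-! ### homogeneous polynomials as anticanonical sections of the plane -/

/-- dehomogenisation -/
def hev (T : TorusField 2 K) : P3 →ₐ[ℂ] K :=
  MvPolynomial.aeval ![T.χ ![1, 0], 1, T.χ ![-1, -1]]

/-- the section of `-m K` given by a form of degree `3 m` -/
def Hm (T : TorusField 2 K) (m : ℕ) : P3 →ₗ[ℂ] K :=
  (LinearMap.mulLeft ℂ (T.χ ![0, (m : ℤ)])) ∘ₗ (hev T).toLinearMap

theorem Hm_apply (T : TorusField 2 K) (m : ℕ) (g : P3) :
    Hm T m g = T.χ ![0, (m : ℤ)] * hev T g := rfl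

theorem Hm_mul (T : TorusField 2 K) (m m' : ℕ) (g g' : P3) :
    Hm T (m + m') (g * g') = Hm T m g * Hm T m' g' := by
  rw [Hm_apply, Hm_apply, Hm_apply, map_mul]
  have : T.χ ![0, ((m + m' : ℕ) : ℤ)] = T.χ ![0, (m : ℤ)] * T.χ ![0, (m' : ℤ)] := by
    rw [← T.χ_add]
    congr 1
    ext i
    fin_cases i
    · simp
    · simp
  rw [this]
  ring

def us (m : ℕ) (s : Fin 3 →₀ ℕ) : Fin 2 → ℤ := ![(s 0 : ℤ) - s 2, (m : ℤ) - s 2]

theorem Hm_monomial (T : TorusField 2 K) (m : ℕ) (s : Fin 3 →₀ ℕ) :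
    Hm T m (MvPolynomial.monomial s 1) = T.χ (us m s) := by
  have h : MvPolynomial.monomial s (1 : ℂ) = X 0 ^ s 0 * X 1 ^ s 1 * X 2 ^ s 2 := by
    rw [MvPolynomial.monomial_eq, Finsupp.prod_fintype _ _ (by simp), Fin.prod_univ_three,
      map_one, one_mul]
  have h0 : hev T (X 0) = T.χ ![1, 0] := by simp [hev]
  have h1 : hev T (X 1) = 1 := by simp [hev]
  have h2 : hev T (X 2) = T.χ ![-1, -1] := by simp [hev]
  rw [Hm_apply, h, map_mul, map_mul, map_pow, map_pow, map_pow, h0, h1, h2, one_pow, mul_one,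
    ← chi_nsmul', ← chi_nsmul', ← T.χ_add, ← T.χ_add]
  congr 1
  unfold us
  ext i
  fin_cases i
  · simp; ring
  · simp; ring

theorem cv_us (m : ℕ) (s : Fin 3 →₀ ℕ) (hs : s.degree = 3 * m) : cv (us m s) = ex s := by
  rw [fin3_degree] at hs
  unfold cv us ex
  ext
  · simp
  · simp; omega

/-- the plane -/
def dataP : SData 2 := dataT 1 0 (by norm_num) (by norm_num) (by norm_num)

theorem mem_ptsP (m : ℕ) (u : Fin 2 → ℤ) : u ∈ dataP.pts m ↔ cv u ∈ Cn (d 1) (d 2) (3 * m : ℕ) := by
  unfold dataP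
  rw [mem_pts]
  have h1 : d 1 = 1 := rfl
  have h2 : d 2 = 1 := rfl
  rw [h1, h2]
  norm_num

theorem ptsP_iff (m : ℕ) (u : Fin 2 → ℤ) : u ∈ dataP.pts m ↔
    ∃ s : Fin 3 →₀ ℕ, s.degree = 3 * m ∧ us m s = u := by
  rw [mem_ptsP]
  constructor
  · intro h
    obtain ⟨s, hs⟩ := (CnBase (3 * m)).surjective ⟨cv u, h⟩
    refine ⟨s.1, s.2, cv_inj ?_⟩
    rw [cv_us m s.1 s.2]
    exact congrArg Subtype.val hs
  · rintro ⟨s, hs, rfl⟩
    rw [cv_us m s hs]
    exact (CnBase (3 * m) ⟨s, hs⟩).2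

theorem hom_span (k : ℕ) : (Hom k : Submodule ℂ P3) =
    Submodule.span ℂ ((fun s => MvPolynomial.monomial s (1 : ℂ)) '' {s | s.degree = k}) := by
  apply le_antisymm
  · intro g hg
    rw [MvPolynomial.mem_homogeneousSubmodule] at hg
    rw [MvPolynomial.as_sum g]
    refine Submodule.sum_mem _ fun s hs => ?_
    have hdeg : s.degree = k := by
      by_contra h
      exact (MvPolynomial.mem_support_iff.mp hs) (hg.coeff_eq_zero h)
    have e4 : MvPolynomial.monomial s (MvPolynomial.coeff s g) =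
        MvPolynomial.coeff s g • MvPolynomial.monomial s (1 : ℂ) := by
      rw [MvPolynomial.smul_monomial, smul_eq_mul, mul_one]
    rw [e4]
    exact Submodule.smul_mem _ _ (Submodule.subset_span ⟨s, hdeg, rfl⟩)
  · rw [Submodule.span_le]
    rintro _ ⟨s, hs, rfl⟩
    exact MvPolynomial.isHomogeneous_monomial 1 hs

theorem Hm_image (T : TorusField 2 K) (m : ℕ) :
    (Hom (3 * m)).map (Hm T m) = (toricVar T dataP).antican m := by
  ext f
  rw [toric_antican, hom_span, Submodule.map_span]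
  have : (Hm T m) '' ((fun s => MvPolynomial.monomial s (1 : ℂ)) '' {s | s.degree = 3 * m}) =
      T.χ '' dataP.pts m := by
    ext x
    constructor
    · rintro ⟨_, ⟨s, hs, rfl⟩, rfl⟩
      exact ⟨us m s, (ptsP_iff m _).2 ⟨s, hs, rfl⟩, (Hm_monomial T m s).symm⟩
    · rintro ⟨u, hu, rfl⟩
      obtain ⟨s, hs, rfl⟩ := (ptsP_iff m _).1 hu
      exact ⟨_, ⟨s, hs, rfl⟩, Hm_monomial T m s⟩
  rw [this]

theorem Hm_inj (T : TorusField 2 K) (m : ℕ) (g : P3) (hg : g ∈ Hom (3 * m)) (h : Hm T m g = 0) :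
    g = 0 := by
  classical
  rw [MvPolynomial.mem_homogeneousSubmodule] at hg
  have hdeg : ∀ s ∈ g.support, s.degree = 3 * m := by
    intro s hs
    by_contra hc
    exact (MvPolynomial.mem_support_iff.mp hs) (hg.coeff_eq_zero hc)
  have h1 : Hm T m g = ∑ s ∈ g.support, MvPolynomial.coeff s g • T.χ (us m s) := by
    conv_lhs => rw [MvPolynomial.as_sum g, map_sum]
    refine Finset.sum_congr rfl fun s _ => ?_
    have e4 : MvPolynomial.monomial s (MvPolynomial.coeff s g) =
        MvPolynomial.coeff s g • MvPolynomial.monomial s (1 : ℂ) := by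
      rw [MvPolynomial.smul_monomial, smul_eq_mul, mul_one]
    rw [e4, map_smul, Hm_monomial]
  have h2 : LinearIndependent ℂ (fun s : g.support => T.χ (us m s.1)) := by
    refine T.li.comp _ ?_
    intro a b hab
    have h3 : cv (us m a.1) = cv (us m b.1) := congrArg cv hab
    rw [cv_us m a.1 (hdeg _ a.2), cv_us m b.1 (hdeg _ b.2)] at h3
    exact Subtype.ext (ex_inj _ (hdeg _ a.2) (hdeg _ b.2) h3)
  have h3 := Fintype.linearIndependent_iff.1 h2 (fun s => MvPolynomial.coeff s.1 g) (by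
    rw [← h, h1, ← Finset.sum_coe_sort g.support (fun s => MvPolynomial.coeff s g • T.χ (us m s))])
  by_contra hne
  obtain ⟨s, hs⟩ := MvPolynomial.ne_zero_iff.1 hne
  exact hs (h3 ⟨s, MvPolynomial.mem_support_iff.2 hs⟩)

end Pool.Agent.H993R3
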